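import Pool.Agent.Helper40_ASE.FBR6

/-!
# Squad ASE, row FBR: the sums `SL` as sums over the fibres

Author: helper40.
-/

open scoped BigOperators

set_option autoImplicit false
set_option linter.unusedSectionVars false

noncomputable section

namespace Pool.Agent.PP.SE.H40

open Pool.Agent.Helper51_AWC Pool.Agent.Helper79_WRA Pool.Agent.PP Pool.Agent.PP.KF
open Pool.Agent.PP.K9 Pool.Agent.PP.K9.H97 Pool.Agent.PP.H75 Pool.Agent.PP.T3 Pool.Agent.PP.SO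
open Pool.Agent.PP.SD
open Pool.Agent.PP.SO.H82 (memC conj_of_mem mem_of_conj cjW TT_fwd TT_bwd TT_C)
open Pool.Agent.PP.SO.H59 (C_mono i_mem_C)
open Pool.Agent.PP.SD.H30 (mem_C_sup bh_cjX ch_conj)

attribute [local instance] Ideal.Quotient.field

section blk

variable {V₀ G : Type} [CommGroup V₀] [Group G] {ℓ : ℕ}
  {M : Ideal (integralClosure ℤ ℂ)} [M.IsMaximal] {E₀ : Subgroup (MulAut V₀)}
  {B : Bk (FF M) V₀ G}

/-- `cx` is a combination of the characters of the block -/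
theorem cx_span [Finite G] [Finite V₀] {W : Subgroup V₀} {χ : G → ℂ} (hχ : χ ∈ Ch B W) (y : V₀) :
    (fun c : B.C (W ⊔ Subgroup.zpowers y) => cx B (W ⊔ Subgroup.zpowers y) y χ c) ∈
      Submodule.span ℂ (IrrE M (fun c : B.C (W ⊔ Subgroup.zpowers y) =>
        B.b (W ⊔ Subgroup.zpowers y) c)) := by
  classical
  have := Fintype.ofFinite (B.C (W ⊔ Subgroup.zpowers y))
  have h1 : (fun c : B.C (W ⊔ Subgroup.zpowers y) => χ c) ∈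
      Submodule.span ℂ (Irr (B.C (W ⊔ Subgroup.zpowers y))) := by
    apply T3.H98.span_irr
    intro x z
    exact ch_conj hχ (C_mono le_sup_left z.2) x
  obtain ⟨z, hz⟩ : ∃ z : B.C (W ⊔ Subgroup.zpowers y), (z : G) = B.i y :=
    ⟨⟨B.i y, i_mem_C y _⟩, rfl⟩
  have h2 := T3.H98.mem_span_blk (M := M) (fun c : B.C (W ⊔ Subgroup.zpowers y) =>
    B.b (W ⊔ Subgroup.zpowers y) c) (z := z) (fun c => by
      apply Subtype.ext
      show (z : G) * c = c * z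
      rw [hz]
      exact ((mem_C_sup (B := B) W y (c : G)).1 c.2).2) h1
  have h3 : (fun c : B.C (W ⊔ Subgroup.zpowers y) => cx B (W ⊔ Subgroup.zpowers y) y χ c) =
      fun c : B.C (W ⊔ Subgroup.zpowers y) => ∑ t, eh M (fun c : B.C (W ⊔ Subgroup.zpowers y) =>
        B.b (W ⊔ Subgroup.zpowers y) c) t * (fun c : B.C (W ⊔ Subgroup.zpowers y) => χ c)
          (z * c * t) := by
    funext c
    unfold cx
    rw [H75.sum_sub (B.C (W ⊔ Subgroup.zpowers y)) _ (fun r hr => by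
      rw [SO.H10L.bh_supp B _ _ hr, zero_mul]), finsum_eq_sum_of_fintype]
    refine Finset.sum_congr rfl fun t _ => ?_
    have e1 : (((z * c * t : B.C (W ⊔ Subgroup.zpowers y))) : G) = B.i y * c * t := by
      rw [Subgroup.coe_mul, Subgroup.coe_mul, hz]
    show _ = _ * χ ((z * c * t : B.C (W ⊔ Subgroup.zpowers y)) : G)
    rw [e1]
    congr 1
    unfold bh PP.ext0
    rw [dif_pos t.2]
  rw [h3]
  exact h2

/-- different blocks -/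
theorem JJ_zero [Fintype G] [Finite V₀] [Fact ℓ.Prime] (rot : K9.RotStmt)
    (hM : (ℓ : integralClosure ℤ ℂ) ∈ M) (hB : Sb ℓ M E₀ B) {L : Set (V₀ × V₀ × ℤ)}
    {χ χ' : G → ℂ} (hχ : χ ∈ Ch B (p1 L)) (hχ' : χ' ∈ Ch B (p2 L)) {y y' : V₀} {τ : G}
    (hτ : τ ∈ SO.H82.TT B L y y') (hne : H75.cj τ (B.b (p2 L ⊔ Subgroup.zpowers y')) ≠
      B.b (p1 L ⊔ Subgroup.zpowers y)) : JJ ℓ B L χ χ' y y' τ = 0 := by
  classical
  have := Fintype.ofFinite (B.C (p1 L ⊔ Subgroup.zpowers y))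
  have hC := TT_C hτ
  have hB1 : Bx (B.C (p1 L ⊔ Subgroup.zpowers y)) (B.b (p1 L ⊔ Subgroup.zpowers y)) :=
    (hB.lb _).blk
  have hB2 : Bx (B.C (p1 L ⊔ Subgroup.zpowers y))
      (H75.cj τ (B.b (p2 L ⊔ Subgroup.zpowers y'))) := T3.H62.bx_cj hC (hB.lb _).blk
  have hmul : mulF (fun t : B.C (p1 L ⊔ Subgroup.zpowers y) =>
      B.b (p1 L ⊔ Subgroup.zpowers y) t) (fun t : B.C (p1 L ⊔ Subgroup.zpowers y) =>
        H75.cj τ (B.b (p2 L ⊔ Subgroup.zpowers y')) t) = 0 := by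
    rcases hB1.dich hB2 with h3 | h3
    · exact absurd h3.symm hne
    · rw [← mulF_res (B.C (p1 L ⊔ Subgroup.zpowers y))
        (H75.cj τ (B.b (p2 L ⊔ Subgroup.zpowers y'))) hB1.supp, h3]
      rfl
  have h1 := cx_span hχ y
  have h2 : (fun c : B.C (p1 L ⊔ Subgroup.zpowers y) =>
      cx B (p2 L ⊔ Subgroup.zpowers y') y' χ' (τ⁻¹ * c * τ)) ∈
      Submodule.span ℂ (IrrE M (fun c : B.C (p1 L ⊔ Subgroup.zpowers y) =>
        H75.cj τ (B.b (p2 L ⊔ Subgroup.zpowers y')) c)) := by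
    have h3 := cx_span hχ' y'
    have h4 : ∀ f ∈ Submodule.span ℂ (IrrE M (fun c : B.C (p2 L ⊔ Subgroup.zpowers y') =>
        B.b (p2 L ⊔ Subgroup.zpowers y') c)), (fun k : B.C (p1 L ⊔ Subgroup.zpowers y) =>
          f ((cjW hC).symm k)) ∈ Submodule.span ℂ (IrrE M
            (fun k : B.C (p1 L ⊔ Subgroup.zpowers y) =>
              (fun c : B.C (p2 L ⊔ Subgroup.zpowers y') =>
                B.b (p2 L ⊔ Subgroup.zpowers y') c) ((cjW hC).symm k))) := by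
      intro f hf
      induction hf using Submodule.span_induction with
      | mem f hf => exact Submodule.subset_span (T5.H89.irrE_equiv (cjW hC)
          (hB.lb _).blk.blk.1.1 hf)
      | zero => exact Submodule.zero_mem _
      | add f g _ _ h1 h2 => exact Submodule.add_mem _ h1 h2
      | smul c f _ h1 => exact Submodule.smul_mem _ c h1
    exact h4 _ h3
  have h5 := SD.H95.dis rot hM hB1.blk.1 (fun θ h3 h4 =>
    T5.H89.irrE_disj hB1.blk.1 hB2.blk.1 hmul h4 h3) h1 h2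
  rw [← h5]
  unfold JJ
  rw [← SO.H59.finsum_mem_ite (fun s : G => s ∈ B.C (p1 L ⊔ Subgroup.zpowers y) ∧ Reg ℓ s)]
  exact T6.H32.sumC ℓ (B.C (p1 L ⊔ Subgroup.zpowers y)) (fun s =>
    cx B (p1 L ⊔ Subgroup.zpowers y) y χ s *
      starRingEnd ℂ (cx B (p2 L ⊔ Subgroup.zpowers y') y' χ' (τ⁻¹ * s * τ)))

/-- multiplication with an element of the centraliser -/
theorem JJ_mul [Fintype G] {L : Set (V₀ × V₀ × ℤ)} {χ χ' : G → ℂ} (hχ : χ ∈ Ch B (p1 L))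
    {y y' : V₀} {k : G} (hk : k ∈ B.C (p1 L ⊔ Subgroup.zpowers y)) (τ : G) :
    JJ ℓ B L χ χ' y y' (k * τ) = JJ ℓ B L χ χ' y y' τ := by
  classical
  unfold JJ
  rw [← Equiv.sum_comp (MulAut.conj k).toEquiv]
  refine Finset.sum_congr rfl fun s _ => ?_
  have e0 : (MulAut.conj k).toEquiv s = k * s * k⁻¹ := rfl
  have e1 : (k * τ)⁻¹ * (k * s * k⁻¹) * (k * τ) = τ⁻¹ * s * τ := by group
  have h1 : k * s * k⁻¹ ∈ B.C (p1 L ⊔ Subgroup.zpowers y) ↔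
      s ∈ B.C (p1 L ⊔ Subgroup.zpowers y) := by
    have h2 := conj_mem_iff (X := B.C (p1 L ⊔ Subgroup.zpowers y)) (g := k⁻¹) (x := s)
      ((B.C _).inv_mem hk)
    rw [inv_inv] at h2
    exact h2
  rw [e0, e1, cx_conj hχ hk]
  by_cases h3 : s ∈ B.C (p1 L ⊔ Subgroup.zpowers y) ∧ Reg ℓ s
  · rw [if_pos h3, if_pos ⟨h1.2 h3.1, reg_conj.2 h3.2⟩]
  · rw [if_neg h3, if_neg (fun h => h3 ⟨h1.1 h.1, reg_conj.1 h.2⟩)]

open Classical in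
/-- the sum over the `τ` -/
theorem sum_τ [Fintype G] [Fintype V₀] [Fintype (MulAut V₀)] [Fact ℓ.Prime] (fud : FudStmt)
    (cjd : CjdStmt) (rot : K9.RotStmt) (hM : (ℓ : integralClosure ℤ ℂ) ∈ M) (hℓ : ℓ ≠ 2)
    (hF : Fq ℓ V₀ E₀) (hB : Sb ℓ M E₀ B) {L : Set (V₀ × V₀ × ℤ)} {χ χ' : G → ℂ}
    (hχ : χ ∈ Ch B (p1 L)) (hχ' : χ' ∈ Ch B (p2 L)) (y : V₀) :
    (∑ y' : V₀, ∑ τ : G, if τ ∈ SO.H82.TT B L y y' then
      wg E₀ B (p2 L) y' * JJ ℓ B L χ χ' y y' τ else 0) =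
    ∑ ρ : MulAut V₀, if ρ ∈ AL E₀ L y then
      (nS E₀ (p2 L) : ℂ)⁻¹ * JJ ℓ B L χ χ' y (ρ⁻¹ y) (tt B ρ) else 0 := by
  have h1 := cos hB (Y := p1 L ⊔ Subgroup.zpowers y) (y := y)
    (Subgroup.mem_sup_right (Subgroup.mem_zpowers y))
    (Finset.univ.filter (fun ρ : MulAut V₀ => ρ ∈ AL E₀ L y))
    (fun ρ hρ => ((Finset.mem_filter.1 hρ).2).1) (fun τ hτ ρ hρ => by
      rw [Finset.mem_filter] at hρ ⊢
      exact ⟨Finset.mem_univ _, St_AL hρ.2 hτ⟩)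
    (fun τ y' => wg E₀ B (p2 L) y' * JJ ℓ B L χ χ' y y' τ)
    (Finset.univ.filter (fun p : G × V₀ => p.1 ∈ SO.H82.TT B L y p.2 ∧
      H75.cj p.1 (B.b (p2 L ⊔ Subgroup.zpowers p.2)) = B.b (p1 L ⊔ Subgroup.zpowers y)))
    (fun p => by
      rw [Finset.mem_filter]
      have h2 := TT_iff fud cjd hM hℓ hF hB (L := L) (y := y) (y' := p.2) (τ := p.1)
      constructor
      · rintro ⟨-, h3⟩
        obtain ⟨ρ, hρ, h4⟩ := h2.1 h3
        exact ⟨ρ, Finset.mem_filter.2 ⟨Finset.mem_univ _, hρ⟩, h4⟩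
      · rintro ⟨ρ, hρ, h4⟩
        exact ⟨Finset.mem_univ _, h2.2 ⟨ρ, (Finset.mem_filter.1 hρ).2, h4⟩⟩)
  have h9 := nS_ne (E₀ := E₀) (p1 L ⊔ Subgroup.zpowers y)
  have h3 : ∀ ρ ∈ Finset.univ.filter (fun ρ : MulAut V₀ => ρ ∈ AL E₀ L y),
      ∑ k : B.C (p1 L ⊔ Subgroup.zpowers y), (wg E₀ B (p2 L) (ρ⁻¹ y) *
        JJ ℓ B L χ χ' y (ρ⁻¹ y) (k * tt B ρ)) =
        (nS E₀ (p1 L ⊔ Subgroup.zpowers y) : ℂ) * ((nS E₀ (p2 L) : ℂ)⁻¹ *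
          JJ ℓ B L χ χ' y (ρ⁻¹ y) (tt B ρ)) := by
    intro ρ hρ
    have h4 : ∀ k : B.C (p1 L ⊔ Subgroup.zpowers y), wg E₀ B (p2 L) (ρ⁻¹ y) *
        JJ ℓ B L χ χ' y (ρ⁻¹ y) (k * tt B ρ) = wg E₀ B (p2 L) (ρ⁻¹ y) *
        JJ ℓ B L χ χ' y (ρ⁻¹ y) (tt B ρ) := fun k => by rw [JJ_mul hχ k.2]
    rw [Finset.sum_congr rfl fun k _ => h4 k, Finset.sum_const, nsmul_eq_mul, Finset.card_univ,
      ← Nat.card_eq_fintype_card, cards cjd hM hℓ hF hB (Finset.mem_filter.1 hρ).2]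
    have h5 := card_ne (B.C (p1 L ⊔ Subgroup.zpowers y))
    have h6 := nS_ne (E₀ := E₀) (p2 L)
    field_simp
  rw [Finset.sum_congr rfl h3, ← Finset.mul_sum] at h1
  have h7 := mul_left_cancel₀ h9 h1
  rw [Finset.sum_filter, Finset.sum_filter] at h7
  rw [h7, Fintype.sum_prod_type, Finset.sum_comm]
  refine Finset.sum_congr rfl fun τ _ => Finset.sum_congr rfl fun y' _ => ?_
  show _ = if τ ∈ SO.H82.TT B L y y' ∧ H75.cj τ (B.b (p2 L ⊔ Subgroup.zpowers y')) =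
    B.b (p1 L ⊔ Subgroup.zpowers y) then wg E₀ B (p2 L) y' * JJ ℓ B L χ χ' y y' τ else 0
  by_cases h8 : τ ∈ SO.H82.TT B L y y'
  · rw [if_pos h8]
    by_cases h10 : H75.cj τ (B.b (p2 L ⊔ Subgroup.zpowers y')) = B.b (p1 L ⊔ Subgroup.zpowers y)
    · rw [if_pos ⟨h8, h10⟩]
    · rw [if_neg (fun h => h10 h.2), JJ_zero rot hM hB hχ hχ' h8 h10, mul_zero]
  · rw [if_neg h8, if_neg (fun h => h8 h.1)]

/-- the function `cx` of the conjugate character -/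
theorem cx_ac [Finite G] [Finite V₀] [Fact ℓ.Prime] (cjd : CjdStmt)
    (hM : (ℓ : integralClosure ℤ ℂ) ∈ M) (hℓ : ℓ ≠ 2) (hF : Fq ℓ V₀ E₀) (hB : Sb ℓ M E₀ B)
    {L : Set (V₀ × V₀ × ℤ)} {χ' : G → ℂ} {y : V₀} {ρ : MulAut V₀} (hρ : ρ ∈ AL E₀ L y) (s : G) :
    cx B (p2 L ⊔ Subgroup.zpowers (ρ⁻¹ y)) (ρ⁻¹ y) χ' ((tt B ρ)⁻¹ * s * tt B ρ) =
      cx B (p1 L ⊔ Subgroup.zpowers y) y (ac B ρ χ') s := by
  unfold cx
  rw [← finsum_comp_equiv (MulAut.conj (tt B ρ)).symm.toEquiv]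
  refine finsum_congr fun r => ?_
  have e1 : (MulAut.conj (tt B ρ)).symm.toEquiv r = (tt B ρ)⁻¹ * r * tt B ρ := rfl
  have h1 := (cjd ℓ M hM hℓ V₀ G E₀ hF B hB ρ hρ.1 (tt B ρ) (tt_spec hB hρ.1).1
    (tt_spec hB hρ.1).2 (p2 L ⊔ Subgroup.zpowers (ρ⁻¹ y))).2.2.2.1 ((tt B ρ)⁻¹ * r * tt B ρ)
  have e2 : tt B ρ * ((tt B ρ)⁻¹ * r * tt B ρ) * (tt B ρ)⁻¹ = r := by group
  rw [AL_map hρ, e2] at h1
  rw [e1, ← h1, ← tt_inv hB hρ.1 y]
  unfold ac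
  congr 2
  group

end blk

/-- FBR -/
theorem fbr (psc : PscStmt) (fud : FudStmt) (cjd : CjdStmt) (smg : T3.SmgStmt)
    (rot : K9.RotStmt) : FbrStmt := by
  intro ℓ _ M _ hM hℓ V₀ G _ _ _ _ E₀ hF B hB n m hPE L _ _ χ hχ χ' hχ'
  classical
  have := Fintype.ofFinite G
  have := Fintype.ofFinite V₀
  have := Fintype.ofFinite (MulAut V₀)
  rw [SL_eq psc fud cjd smg hM hℓ hF hB hPE hχ hχ']
  congr 1
  have hQ : ∀ w : MulAut V₀ × V₀, w ∈ QL E₀ L ↔ w.1⁻¹ ∈ AL E₀ L w.2 := by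
    intro w
    unfold QL AL
    rw [Set.mem_ofPred_eq, Set.mem_ofPred_eq]
    refine and_congr (Subgroup.inv_mem_iff E₀).symm (forall₂_congr fun s _ => ?_)
    constructor
    · intro h
      rw [← h, MulAut.inv_apply_self]
    · intro h
      rw [← h, MulAut.apply_inv_self]
  have h1 := SO.H59.finsum_mem_ite (fun w : MulAut V₀ × V₀ => w ∈ QL E₀ L) (fun w =>
      (nS E₀ (p1 L ⊔ Subgroup.zpowers w.2) : ℂ) / ((nS E₀ (p1 L) : ℂ) * nS E₀ (p2 L) *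
        Nat.card (B.C (p1 L ⊔ Subgroup.zpowers w.2))) *
      ∑ᶠ s ∈ {s : G | s ∈ B.C (p1 L ⊔ Subgroup.zpowers w.2) ∧ Reg ℓ s},
        cx B (p1 L ⊔ Subgroup.zpowers w.2) w.2 χ s *
          starRingEnd ℂ (cx B (p1 L ⊔ Subgroup.zpowers w.2) w.2 (ac B w.1⁻¹ χ') s))
  refine Eq.trans ?_ h1.symm
  rw [Fintype.sum_prod_type, Finset.sum_comm]
  refine Finset.sum_congr rfl fun y _ => ?_
  rw [sum_τ fud cjd rot hM hℓ hF hB hχ hχ' y, Finset.mul_sum, ← Equiv.sum_comp (Equiv.inv _)]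
  refine Finset.sum_congr rfl fun σ _ => ?_
  have e0 : (Equiv.inv (MulAut V₀)) σ = σ⁻¹ := rfl
  rw [e0]
  show wg E₀ B (p1 L) y * (if σ⁻¹ ∈ AL E₀ L y then
      (nS E₀ (p2 L) : ℂ)⁻¹ * JJ ℓ B L χ χ' y (σ⁻¹⁻¹ y) (tt B σ⁻¹) else 0) =
    if (σ, y) ∈ QL E₀ L then (nS E₀ (p1 L ⊔ Subgroup.zpowers y) : ℂ) /
        ((nS E₀ (p1 L) : ℂ) * nS E₀ (p2 L) * Nat.card (B.C (p1 L ⊔ Subgroup.zpowers y))) *
      ∑ᶠ s ∈ {s : G | s ∈ B.C (p1 L ⊔ Subgroup.zpowers y) ∧ Reg ℓ s},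
        cx B (p1 L ⊔ Subgroup.zpowers y) y χ s *
          starRingEnd ℂ (cx B (p1 L ⊔ Subgroup.zpowers y) y (ac B σ⁻¹ χ') s) else 0
  by_cases h2 : σ⁻¹ ∈ AL E₀ L y
  · rw [if_pos h2, if_pos ((hQ (σ, y)).2 h2)]
    have h3 : JJ ℓ B L χ χ' y (σ⁻¹⁻¹ y) (tt B σ⁻¹) =
        ∑ᶠ s ∈ {s : G | s ∈ B.C (p1 L ⊔ Subgroup.zpowers y) ∧ Reg ℓ s},
          cx B (p1 L ⊔ Subgroup.zpowers y) y χ s *
            starRingEnd ℂ (cx B (p1 L ⊔ Subgroup.zpowers y) y (ac B σ⁻¹ χ') s) := by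
      rw [SO.H59.finsum_mem_ite (fun s : G => s ∈ B.C (p1 L ⊔ Subgroup.zpowers y) ∧ Reg ℓ s)]
      unfold JJ
      refine Finset.sum_congr rfl fun s _ => ?_
      rw [cx_ac cjd hM hℓ hF hB h2]
    rw [h3]
    unfold wg
    have h5 := card_ne (B.C (p1 L ⊔ Subgroup.zpowers y))
    have h6 := nS_ne (E₀ := E₀) (p2 L)
    have h7 := nS_ne (E₀ := E₀) (p1 L)
    field_simp
  · rw [if_neg h2, if_neg (fun h => h2 ((hQ (σ, y)).1 h)), mul_zero]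

end Pool.Agent.PP.SE.H40
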