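import Pool.Agent.ASE.Stmts3
import Pool.Agent.Helper95_ASD.FIB
import Pool.Agent.Helper30_ASD.SMX3
import Pool.Agent.Helper13_ASO.PrA
import Pool.Agent.Helper49_ASD.RDA

/-!
# Squad ASE, row FBR, part 1: the value of a character at `z x`, decomposed into the local blocks

Author: helper40.
-/

open scoped BigOperators

set_option autoImplicit false
set_option linter.unusedSectionVars false

noncomputable section

namespace Pool.Agent.PP.SE.H40

open Pool.Agent.Helper51_AWC Pool.Agent.Helper79_WRA Pool.Agent.PP Pool.Agent.PP.KF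
open Pool.Agent.PP.K9 Pool.Agent.PP.K9.H97 Pool.Agent.PP.H75 Pool.Agent.PP.T3 Pool.Agent.PP.SO
open Pool.Agent.PP.SD
open Pool.Agent.PP.SO.H82 (memC conj_of_mem mem_of_conj cjW)
open Pool.Agent.PP.SO.H59 (C_mono i_mem_C)

attribute [local instance] Ideal.Quotient.field

section blk

variable {V₀ G : Type} [CommGroup V₀] [Group G] [Finite G] {ℓ : ℕ}
  {M : Ideal (integralClosure ℤ ℂ)} [M.IsMaximal] {E₀ : Subgroup (MulAut V₀)}
  {B : Bk (FF M) V₀ G}

/-- `b W` is over `b Y` for `W ≤ Y` -/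
theorem und_le [Finite V₀] [Fact ℓ.Prime] (hM : (ℓ : integralClosure ℤ ℂ) ∈ M) (hℓ : ℓ ≠ 2)
    (hF : Fq ℓ V₀ E₀) (hB : Sb ℓ M E₀ B) {W Y : Subgroup V₀} (hle : W ≤ Y) :
    mulF (fun t : B.C Y => B.b W t) (fun t : B.C Y => B.b Y t) = fun t : B.C Y => B.b Y t := by
  obtain ⟨-, B', hB', he, -, -, hb, hC, -⟩ := SD.H49.rda ℓ M hM hℓ V₀ G E₀ hF B hB W
  have hWY : W ⊔ Y = Y := sup_eq_right.2 hle
  have hC' : ∀ t : B.C W, t ∈ B'.C Y ↔ (t : G) ∈ B.C Y := by
    intro t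
    rw [hC Y t, hWY]
  obtain ⟨φ, hφ⟩ : ∃ φ : B.C Y ≃* B'.C Y, ∀ t : B.C Y, (((φ t : B'.C Y) : B.C W) : G) = t :=
    ⟨{ toFun := fun t => ⟨⟨t, C_mono hle t.2⟩, (hC' _).2 t.2⟩
       invFun := fun t => ⟨((t : B.C W) : G), (hC' _).1 t.2⟩
       left_inv := fun _ => rfl
       right_inv := fun _ => rfl
       map_mul' := fun _ _ => rfl }, fun _ => rfl⟩
  have h1 : mulF (fun t : B'.C Y => B'.e t) (fun t : B'.C Y => B'.b Y t) =
      fun t : B'.C Y => B'.b Y t := (hB'.lb Y).und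
  have h2 := H20.mulF_equiv φ (fun t : B'.C Y => B'.e t) (fun t : B'.C Y => B'.b Y t)
  rw [h1] at h2
  have e1 : (fun t : B.C Y => (fun t : B'.C Y => B'.e t) (φ t)) = fun t : B.C Y => B.b W t := by
    funext t
    show B'.e ((φ t : B'.C Y) : B.C W) = _
    rw [he, hφ]
  have e2 : (fun t : B.C Y => (fun t : B'.C Y => B'.b Y t) (φ t)) =
      fun t : B.C Y => B.b Y t := by
    funext t
    show B'.b Y ((φ t : B'.C Y) : B.C W) = _
    rw [hb, hφ, hWY]
  rw [e1, e2] at h2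
  exact h2

/-- the value at `z s` as a sum over the centraliser -/
theorem val_sum (smg : T3.SmgStmt) [Fact ℓ.Prime] (hM : (ℓ : integralClosure ℤ ℂ) ∈ M)
    {X K : Subgroup G} [Fintype K]
    {b : G → FF M} (hb : IsIdem (fun t : X => b t)) {χ : G → ℂ}
    (hχ : (fun t : X => χ t) ∈ IrrE M (fun t : X => b t)) {z : G} (hz : z ∈ X) (hel : El ℓ z)
    (hK : ∀ x, x ∈ K ↔ x ∈ X ∧ x * z = z * x) :
    IsIdem (fun t : K => b t) ∧ ∀ s : K, Reg ℓ s →
      χ (z * s) = ∑ t : K, eh M (fun t : K => b t) t * χ (z * s * t) := by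
  classical
  have hF : GoodF ℓ (FF M) := H50.fld ℓ Fact.out M hM
  obtain ⟨z', hz'⟩ : ∃ z' : X, (z' : G) = z := ⟨⟨z, hz⟩, rfl⟩
  have hel' : El ℓ z' := by
    obtain ⟨n, hn⟩ := hel
    exact ⟨n, Subtype.ext (by rw [Subgroup.coe_pow, hz', hn]; rfl)⟩
  have hmem : ∀ x : X, x ∈ Cu z' ↔ (x : G) ∈ K := by
    intro x
    rw [Subgroup.mem_centralizer_singleton_iff, hK]
    constructor
    · intro h
      refine ⟨x.2, ?_⟩
      have h1 := congrArg Subtype.val h
      rw [← hz']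
      exact h1
    · rintro ⟨-, h⟩
      apply Subtype.ext
      rw [← hz'] at h
      exact h
  obtain ⟨φ, hφ⟩ : ∃ φ : Cu z' ≃* K, ∀ k : K, (((φ.symm k : Cu z') : X) : G) = k :=
    ⟨{ toFun := fun t => ⟨((t : X) : G), (hmem t).1 t.2⟩
       invFun := fun t => ⟨⟨t, ((hK t).1 t.2).1⟩, (hmem _).2 t.2⟩
       left_inv := fun _ => rfl
       right_inv := fun _ => rfl
       map_mul' := fun _ _ => rfl }, fun _ => rfl⟩
  have := Fintype.ofFinite G
  have := Fintype.ofFinite (Cu z')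
  obtain ⟨b', hb'⟩ : ∃ b' : Cu z' → FF M, b' = fun t : Cu z' => b ((t : X) : G) := ⟨_, rfl⟩
  have hid : IsIdem b' := by
    rw [hb']
    exact T3.H98.idem_cu hF hb hel'
  have hbK : (fun t : K => b t) = fun t : K => b' (φ.symm t) := by
    rw [hb']
    funext t
    exact congrArg b (hφ t).symm
  have hχ' := hχ.1
  obtain ⟨ψ, hψ⟩ : ∃ ψ : X → ℂ, ψ = fun t : X => χ t := ⟨_, rfl⟩
  rw [← hψ] at hχ hχ'
  have hψc : ∀ x y : X, ψ (y * x * y⁻¹) = ψ x := fun x y => irr_conj hχ' x y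
  refine ⟨?_, ?_⟩
  · rw [hbK]
    exact H18.idem_equiv φ.symm hid
  · intro s hs
    have hs' : Reg ℓ ((φ.symm s : Cu z') : X) := by
      rw [← H95.reg_coe, hφ, H95.reg_coe]
      exact hs
    have h1 := T6.H16.smh smg ℓ M hM X (fun t : X => b t) hb z' hel' _ (φ.symm s).2 hs' ψ hψc
    rw [(T6.H16.fv_eh _ hχ' _).1 hχ] at h1
    have h2 : ψ (z' * ((φ.symm s : Cu z') : X)) = χ (z * s) := by
      rw [hψ]
      show χ ((z' : G) * (((φ.symm s : Cu z') : X) : G)) = _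
      rw [hφ, hz']
    rw [← h2, h1]
    unfold gv gbv
    rw [finsum_eq_sum_of_fintype, ← Equiv.sum_comp φ.symm.toEquiv]
    refine Finset.sum_congr rfl fun t _ => ?_
    have h3 : eh M (fun t : K => b t) t = eh M b' (φ.symm t) := by
      have h4 := T3.H62.eh_equiv (M := M) φ (b := b') hid.1 (φ.symm t)
      rw [φ.apply_symm_apply] at h4
      rw [hbK]
      exact h4
    have h5 : ψ (z' * ((φ.symm s : Cu z') : X) * ((φ.symm t : Cu z') : X)) = χ (z * s * t) := by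
      rw [hψ]
      show χ ((z' : G) * (((φ.symm s : Cu z') : X) : G) * (((φ.symm t : Cu z') : X) : G)) = _
      rw [hφ, hφ, hz']
    rw [h3, ← h5, hb']
    rfl

end blk

end Pool.Agent.PP.SE.H40
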