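import Pool.Agent.Helper40_ASE.FBR1

/-!
# Squad ASE, row FBR, part 2: counting

Author: helper40.
-/

open scoped BigOperators

set_option autoImplicit false
set_option linter.unusedSectionVars false

noncomputable section

namespace Pool.Agent.PP.SE.H40

open Pool.Agent.Helper51_AWC Pool.Agent.Helper79_WRA Pool.Agent.PP Pool.Agent.PP.KF
open Pool.Agent.PP.K9 Pool.Agent.PP.K9.H97 Pool.Agent.PP.H75 Pool.Agent.PP.T3 Pool.Agent.PP.SO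
open Pool.Agent.PP.SD
open Pool.Agent.PP.SO.H82 (memC conj_of_mem mem_of_conj cjW TT_fwd TT_bwd TT_C)
open Pool.Agent.PP.SO.H59 (C_mono i_mem_C)

attribute [local instance] Ideal.Quotient.field

section blk

variable {V₀ G : Type} [CommGroup V₀] [Group G] {ℓ : ℕ}
  {M : Ideal (integralClosure ℤ ℂ)} [M.IsMaximal] {E₀ : Subgroup (MulAut V₀)}
  {B : Bk (FF M) V₀ G}

theorem tt_spec (hB : Sb ℓ M E₀ B) {σ : MulAut V₀} (hσ : σ ∈ E₀) :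
    tt B σ ∈ Tg B.i.range B.g ∧ ∀ v, tt B σ * B.i v * (tt B σ)⁻¹ = B.i (σ v) := by
  have h := hB.sur σ hσ
  unfold tt
  rw [dif_pos h]
  exact h.choose_spec

theorem tt_inv (hB : Sb ℓ M E₀ B) {σ : MulAut V₀} (hσ : σ ∈ E₀) (v : V₀) :
    (tt B σ)⁻¹ * B.i v * tt B σ = B.i (σ⁻¹ v) := by
  have h := (tt_spec hB hσ).2 (σ⁻¹ v)
  rw [MulAut.apply_inv_self] at h
  rw [← h]
  group

/-- the set of the `ρ` -/
def AL (E₀ : Subgroup (MulAut V₀)) (L : Set (V₀ × V₀ × ℤ)) (y : V₀) : Set (MulAut V₀) :=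
  {ρ | ρ ∈ E₀ ∧ ∀ s ∈ L, ρ s.2.1 = s.1 * y ^ s.2.2}

theorem AL_map {L : Set (V₀ × V₀ × ℤ)} {y : V₀} {ρ : MulAut V₀} (hρ : ρ ∈ AL E₀ L y) :
    (p2 L ⊔ Subgroup.zpowers (ρ⁻¹ y)).map ρ.toMonoidHom = p1 L ⊔ Subgroup.zpowers y := by
  have hy : y ∈ p1 L ⊔ Subgroup.zpowers y := Subgroup.mem_sup_right (Subgroup.mem_zpowers y)
  have hy' : ρ⁻¹ y ∈ p2 L ⊔ Subgroup.zpowers (ρ⁻¹ y) :=
    Subgroup.mem_sup_right (Subgroup.mem_zpowers _)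
  apply le_antisymm
  · rw [Subgroup.map_le_iff_le_comap, sup_le_iff]
    constructor
    · unfold p2
      rw [Subgroup.closure_le]
      rintro _ ⟨s, hs, rfl⟩
      show ρ s.2.1 ∈ p1 L ⊔ Subgroup.zpowers y
      rw [hρ.2 s hs]
      exact Subgroup.mul_mem _ (Subgroup.mem_sup_left (Subgroup.subset_closure ⟨s, hs, rfl⟩))
        (Subgroup.zpow_mem _ hy _)
    · rw [Subgroup.zpowers_le]
      show ρ (ρ⁻¹ y) ∈ p1 L ⊔ Subgroup.zpowers y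
      rw [MulAut.apply_inv_self]
      exact hy
  · rw [sup_le_iff]
    constructor
    · unfold p1
      rw [Subgroup.closure_le]
      rintro _ ⟨s, hs, rfl⟩
      refine ⟨s.2.1 * ((ρ⁻¹ y) ^ s.2.2)⁻¹, ?_, ?_⟩
      · exact Subgroup.mul_mem _ (Subgroup.mem_sup_left (Subgroup.subset_closure ⟨s, hs, rfl⟩))
          (Subgroup.inv_mem _ (Subgroup.zpow_mem _ hy' _))
      · show ρ (s.2.1 * ((ρ⁻¹ y) ^ s.2.2)⁻¹) = s.1
        rw [map_mul, map_inv, map_zpow, MulAut.apply_inv_self, hρ.2 s hs, mul_inv_cancel_right]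
    · rw [Subgroup.zpowers_le]
      exact ⟨ρ⁻¹ y, hy', MulAut.apply_inv_self _ _ _⟩

theorem St_AL {L : Set (V₀ × V₀ × ℤ)} {y : V₀} {ρ τ : MulAut V₀} (hρ : ρ ∈ AL E₀ L y)
    (hτ : τ ∈ St E₀ (p1 L ⊔ Subgroup.zpowers y)) : τ * ρ ∈ AL E₀ L y := by
  refine ⟨E₀.mul_mem hτ.1 hρ.1, fun s hs => ?_⟩
  rw [MulAut.mul_apply, hρ.2 s hs]
  exact hτ.2 _ (Subgroup.mul_mem _ (Subgroup.mem_sup_left (Subgroup.subset_closure ⟨s, hs, rfl⟩))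
    (Subgroup.zpow_mem _ (Subgroup.mem_sup_right (Subgroup.mem_zpowers y)) _))

/-- the order of the stabiliser of a conjugate -/
theorem nS_map {σ : MulAut V₀} (hσ : σ ∈ E₀) (W : Subgroup V₀) :
    nS E₀ (W.map σ.toMonoidHom) = nS E₀ W := by
  unfold nS
  refine Nat.card_congr
    { toFun := fun τ => ⟨σ⁻¹ * τ.1 * σ, E₀.mul_mem (E₀.mul_mem (E₀.inv_mem hσ) τ.2.1) hσ, ?_⟩
      invFun := fun τ => ⟨σ * τ.1 * σ⁻¹, E₀.mul_mem (E₀.mul_mem hσ τ.2.1) (E₀.inv_mem hσ), ?_⟩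
      left_inv := fun τ => Subtype.ext (by
        show σ * (σ⁻¹ * τ.1 * σ) * σ⁻¹ = τ.1
        group)
      right_inv := fun τ => Subtype.ext (by
        show σ⁻¹ * (σ * τ.1 * σ⁻¹) * σ = τ.1
        group) }
  · intro w hw
    rw [MulAut.mul_apply, MulAut.mul_apply, τ.2.2 (σ w) ⟨w, hw, rfl⟩, MulAut.inv_apply_self]
  · rintro _ ⟨w, hw, rfl⟩
    show (σ * τ.1 * σ⁻¹) (σ w) = σ w
    rw [MulAut.mul_apply, MulAut.mul_apply, MulAut.inv_apply_self, τ.2.2 w hw]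

/-- the elements which conjugate `b Y'` to `b Y` -/
theorem TT_iff [Finite G] [Finite V₀] [Fact ℓ.Prime] (fud : FudStmt) (cjd : CjdStmt)
    (hM : (ℓ : integralClosure ℤ ℂ) ∈ M) (hℓ : ℓ ≠ 2) (hF : Fq ℓ V₀ E₀) (hB : Sb ℓ M E₀ B)
    {L : Set (V₀ × V₀ × ℤ)} {y y' : V₀} {τ : G} :
    (τ ∈ SO.H82.TT B L y y' ∧ H75.cj τ (B.b (p2 L ⊔ Subgroup.zpowers y')) =
      B.b (p1 L ⊔ Subgroup.zpowers y)) ↔
    ∃ ρ ∈ AL E₀ L y, τ * (tt B ρ)⁻¹ ∈ B.C (p1 L ⊔ Subgroup.zpowers y) ∧ ρ⁻¹ y = y' := by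
  classical
  have hy : y ∈ p1 L ⊔ Subgroup.zpowers y := Subgroup.mem_sup_right (Subgroup.mem_zpowers y)
  have hy' : y' ∈ p2 L ⊔ Subgroup.zpowers y' := Subgroup.mem_sup_right (Subgroup.mem_zpowers _)
  have hq : ∀ s ∈ L, s.2.1 ∈ p2 L ⊔ Subgroup.zpowers y' := fun s hs =>
    Subgroup.mem_sup_left (Subgroup.subset_closure ⟨s, hs, rfl⟩)
  constructor
  · rintro ⟨hτ, hcj⟩
    obtain ⟨f, hf⟩ : ∃ f : V₀ → V₀, ∀ v ∈ p2 L ⊔ Subgroup.zpowers y',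
        f v ∈ p1 L ⊔ Subgroup.zpowers y ∧ τ * B.i v * τ⁻¹ = B.i (f v) := by
      refine ⟨fun v => if h : v ∈ p2 L ⊔ Subgroup.zpowers y' then (TT_fwd hτ v h).choose else 1,
        fun v hv => ?_⟩
      simp only [dif_pos hv]
      exact (TT_fwd hτ v hv).choose_spec
    have hsurj : ∀ v ∈ p1 L ⊔ Subgroup.zpowers y, ∃ v' ∈ p2 L ⊔ Subgroup.zpowers y',
        f v' = v := by
      intro u hu
      obtain ⟨v, hv, e⟩ := TT_bwd hτ u hu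
      refine ⟨v, hv, ?_⟩
      apply hB.inj
      rw [← (hf v hv).2, e]
    obtain ⟨ρ, hρ, hfρ, -⟩ := fud ℓ M hM V₀ G E₀ hF B hB _ _ τ f
      (fun v hv => (hf v hv).2) (fun v hv => (hf v hv).1) hsurj hcj
    refine ⟨ρ, ⟨hρ, fun s hs => ?_⟩, ?_, ?_⟩
    · apply hB.inj
      rw [← hfρ _ (hq s hs), ← (hf _ (hq s hs)).2]
      exact hτ.2 s hs
    · apply mem_of_conj
      intro v hv
      obtain ⟨v', hv', e⟩ := hsurj v hv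
      have h1 := tt_inv hB hρ v
      have h2 : ρ⁻¹ v = v' := by
        rw [← e, hfρ v' hv', MulAut.inv_apply_self]
      rw [h2] at h1
      have h3 : τ * (tt B ρ)⁻¹ * B.i v * (τ * (tt B ρ)⁻¹)⁻¹ =
          τ * ((tt B ρ)⁻¹ * B.i v * tt B ρ) * τ⁻¹ := by group
      rw [h3, h1, (hf v' hv').2, e]
    · have h1 : f y' = y := by
        apply hB.inj
        rw [← (hf y' hy').2]
        exact hτ.1
      rw [← h1, hfρ y' hy', MulAut.inv_apply_self]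
  · rintro ⟨ρ, hρ, hc, rfl⟩
    obtain ⟨c, hcd⟩ : ∃ c, c = τ * (tt B ρ)⁻¹ := ⟨_, rfl⟩
    have hτc : τ = c * tt B ρ := by
      rw [hcd]
      group
    rw [← hcd] at hc
    have hkey : ∀ v, ρ v ∈ p1 L ⊔ Subgroup.zpowers y → τ * B.i v * τ⁻¹ = B.i (ρ v) := by
      intro v hv
      have h1 : τ * B.i v * τ⁻¹ = c * (tt B ρ * B.i v * (tt B ρ)⁻¹) * c⁻¹ := by
        rw [hτc]
        group
      rw [h1, (tt_spec hB hρ.1).2 v]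
      exact conj_of_mem B hc hv
    refine ⟨⟨?_, fun s hs => ?_⟩, ?_⟩
    · rw [hkey _ (by rw [MulAut.apply_inv_self]; exact hy), MulAut.apply_inv_self]
    · rw [hkey _ (by
        rw [hρ.2 s hs]
        exact Subgroup.mul_mem _ (Subgroup.mem_sup_left (Subgroup.subset_closure ⟨s, hs, rfl⟩))
          (Subgroup.zpow_mem _ hy _)), hρ.2 s hs]
    · rw [hτc, ← cj_cj, (cjd ℓ M hM hℓ V₀ G E₀ hF B hB ρ hρ.1 (tt B ρ) (tt_spec hB hρ.1).1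
        (tt_spec hB hρ.1).2 _).1, AL_map hρ]
      exact ((hB.lb _).blk.ix).inv hc

/-- the sum over the cosets -/
theorem cos [Fintype G] [Fintype (MulAut V₀)] (hB : Sb ℓ M E₀ B)
    {Y : Subgroup V₀} [Fintype (B.C Y)] {y : V₀} (hy : y ∈ Y) (A : Finset (MulAut V₀))
    (hA : ∀ ρ ∈ A, ρ ∈ E₀) (hSt : ∀ τ ∈ St E₀ Y, ∀ ρ ∈ A, τ * ρ ∈ A) (Ψ : G → V₀ → ℂ)
    (T : Finset (G × V₀))
    (hT : ∀ p : G × V₀, p ∈ T ↔ ∃ ρ ∈ A, p.1 * (tt B ρ)⁻¹ ∈ B.C Y ∧ ρ⁻¹ y = p.2) :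
    ∑ ρ ∈ A, ∑ k : B.C Y, Ψ (k * tt B ρ) (ρ⁻¹ y) = (nS E₀ Y : ℂ) * ∑ p ∈ T, Ψ p.1 p.2 := by
  classical
  have h1 : ∑ ρ ∈ A, ∑ k : B.C Y, Ψ (k * tt B ρ) (ρ⁻¹ y) =
      ∑ a ∈ A ×ˢ (Finset.univ : Finset (B.C Y)), Ψ (a.2 * tt B a.1) (a.1⁻¹ y) := by
    rw [Finset.sum_product]
  obtain ⟨f, hf⟩ : ∃ f : MulAut V₀ × B.C Y → G × V₀, f = fun a => (a.2 * tt B a.1, a.1⁻¹ y) :=
    ⟨_, rfl⟩
  have hmaps : ∀ a ∈ A ×ˢ (Finset.univ : Finset (B.C Y)), f a ∈ T := by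
    intro a ha
    rw [hT, hf]
    refine ⟨a.1, (Finset.mem_product.1 ha).1, ?_, rfl⟩
    show (a.2 : G) * tt B a.1 * (tt B a.1)⁻¹ ∈ B.C Y
    rw [mul_inv_cancel_right]
    exact a.2.2
  rw [h1, ← Finset.sum_fiberwise_of_maps_to hmaps, Finset.mul_sum]
  refine Finset.sum_congr rfl fun p hp => ?_
  have h2 : ∀ a ∈ (A ×ˢ (Finset.univ : Finset (B.C Y))).filter (fun a => f a = p),
      Ψ (a.2 * tt B a.1) (a.1⁻¹ y) = Ψ p.1 p.2 := by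
    intro a ha
    rw [← (Finset.mem_filter.1 ha).2, hf]
  rw [Finset.sum_congr rfl h2, Finset.sum_const, nsmul_eq_mul]
  congr 2
  -- the number of the elements of a fibre
  obtain ⟨ρ₀, hρ₀, hc₀, hy₀⟩ := (hT p).1 hp
  have hst : ∀ {ρ ρ' : MulAut V₀}, ρ ∈ E₀ → ρ' ∈ E₀ → ∀ v,
      tt B ρ * (tt B ρ')⁻¹ * B.i v * (tt B ρ * (tt B ρ')⁻¹)⁻¹ = B.i (ρ (ρ'⁻¹ v)) := by
    intro ρ ρ' hρ hρ' v
    have e : tt B ρ * (tt B ρ')⁻¹ * B.i v * (tt B ρ * (tt B ρ')⁻¹)⁻¹ =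
        tt B ρ * ((tt B ρ')⁻¹ * B.i v * tt B ρ') * (tt B ρ)⁻¹ := by group
    rw [e, tt_inv hB hρ', (tt_spec hB hρ).2]
  have hmul : ∀ {ρ : MulAut V₀}, ρ ∈ A → p.1 * (tt B ρ)⁻¹ ∈ B.C Y → ρ * ρ₀⁻¹ ∈ St E₀ Y := by
    intro ρ hρ hc
    refine ⟨E₀.mul_mem (hA ρ hρ) (E₀.inv_mem (hA _ hρ₀)), fun v hv => ?_⟩
    have h3 : tt B ρ * (tt B ρ₀)⁻¹ ∈ B.C Y := by
      have h4 := (B.C Y).mul_mem ((B.C Y).inv_mem hc) hc₀
      have e : (p.1 * (tt B ρ)⁻¹)⁻¹ * (p.1 * (tt B ρ₀)⁻¹) = tt B ρ * (tt B ρ₀)⁻¹ := by group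
      rw [e] at h4
      exact h4
    apply hB.inj
    rw [MulAut.mul_apply, ← hst (hA ρ hρ) (hA _ hρ₀)]
    exact conj_of_mem B h3 hv
  have hin : ∀ {τ : MulAut V₀}, τ ∈ St E₀ Y → p.1 * (tt B (τ * ρ₀))⁻¹ ∈ B.C Y := by
    intro τ hτ
    have h3 : tt B ρ₀ * (tt B (τ * ρ₀))⁻¹ ∈ B.C Y := by
      apply mem_of_conj
      intro v hv
      rw [hst (hA _ hρ₀) (hA _ (hSt τ hτ _ hρ₀))]
      congr 1
      rw [mul_inv_rev, MulAut.mul_apply, MulAut.apply_inv_self]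
      exact ((St E₀ Y).inv_mem hτ).2 v hv
    have h4 := (B.C Y).mul_mem hc₀ h3
    have e : p.1 * (tt B ρ₀)⁻¹ * (tt B ρ₀ * (tt B (τ * ρ₀))⁻¹) = p.1 * (tt B (τ * ρ₀))⁻¹ := by
      group
    rw [e] at h4
    exact h4
  unfold nS
  rw [← Nat.card_eq_fintype_card.trans (Fintype.card_coe _)]
  symm
  refine Nat.card_congr
    { toFun := fun τ => ⟨(τ.1 * ρ₀, ⟨p.1 * (tt B (τ.1 * ρ₀))⁻¹, hin τ.2⟩), ?_⟩
      invFun := fun a => ⟨a.1.1 * ρ₀⁻¹, ?_⟩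
      left_inv := fun τ => Subtype.ext (by
        show τ.1 * ρ₀ * ρ₀⁻¹ = τ.1
        group)
      right_inv := fun a => ?_ }
  · rw [Finset.mem_filter, Finset.mem_product]
    refine ⟨⟨hSt _ τ.2 _ hρ₀, Finset.mem_univ _⟩, ?_⟩
    rw [hf]
    refine Prod.ext ?_ ?_
    · show p.1 * (tt B (τ.1 * ρ₀))⁻¹ * tt B (τ.1 * ρ₀) = p.1
      group
    · show (τ.1 * ρ₀)⁻¹ y = p.2
      rw [mul_inv_rev, MulAut.mul_apply, ((St E₀ Y).inv_mem τ.2).2 y hy]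
      exact hy₀
  · have ha := Finset.mem_filter.1 a.2
    have h6 : (a.1.2 : G) * tt B a.1.1 = p.1 := by
      have h7 := congrArg Prod.fst ha.2
      rw [show f a.1 = _ from congrFun hf a.1] at h7
      exact h7
    refine hmul (Finset.mem_product.1 ha.1).1 ?_
    rw [← h6, mul_inv_cancel_right]
    exact a.1.2.2
  · have ha := Finset.mem_filter.1 a.2
    have h6 : (a.1.2 : G) * tt B a.1.1 = p.1 := by
      have h7 := congrArg Prod.fst ha.2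
      rw [show f a.1 = _ from congrFun hf a.1] at h7
      exact h7
    have h7 : a.1.1 * ρ₀⁻¹ * ρ₀ = a.1.1 := by group
    refine Subtype.ext (Prod.ext h7 (Subtype.ext ?_))
    show p.1 * (tt B (a.1.1 * ρ₀⁻¹ * ρ₀))⁻¹ = a.1.2
    rw [h7, ← h6, mul_inv_cancel_right]

end blk

end Pool.Agent.PP.SE.H40
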