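import Pool.Agent.Helper40_ASE.FBR2

/-!
# Squad ASE, row FBR, part 3: the value of a character at `z x` as a sum over the pairs `(g, y)`

Author: helper40.
-/

open scoped BigOperators

set_option autoImplicit false
set_option linter.unusedSectionVars false

noncomputable section

namespace Pool.Agent.PP.SE.H40

open Pool.Agent.Helper51_AWC Pool.Agent.Helper79_WRA Pool.Agent.PP Pool.Agent.PP.KF
open Pool.Agent.PP.K9 Pool.Agent.PP.K9.H97 Pool.Agent.PP.H75 Pool.Agent.PP.T3 Pool.Agent.PP.SO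
open Pool.Agent.PP.SD
open Pool.Agent.PP.SO.H82 (memC conj_of_mem mem_of_conj cjW TT_fwd TT_bwd TT_C)
open Pool.Agent.PP.SO.H59 (C_mono i_mem_C)
open Pool.Agent.PP.SD.H30 (mem_C_sup bh_cjX ch_conj)

attribute [local instance] Ideal.Quotient.field

section blk

variable {V₀ G : Type} [CommGroup V₀] [Group G] {ℓ : ℕ}
  {M : Ideal (integralClosure ℤ ℂ)} [M.IsMaximal] {E₀ : Subgroup (MulAut V₀)}
  {B : Bk (FF M) V₀ G}

/-- the triples `(w, w, 0)` -/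
def LW (W : Subgroup V₀) : Set (V₀ × V₀ × ℤ) := {s | ∃ w ∈ W, s = (w, w, 0)}

theorem LW_p1 (W : Subgroup V₀) : p1 (LW W) = W := by
  unfold p1
  have h : {p | ∃ s ∈ LW W, s.1 = p} = (W : Set V₀) := by
    ext p
    constructor
    · rintro ⟨_, ⟨w, hw, rfl⟩, rfl⟩
      exact hw
    · intro hp
      exact ⟨(p, p, 0), ⟨p, hp, rfl⟩, rfl⟩
  rw [h, Subgroup.closure_eq]

theorem LW_p2 (W : Subgroup V₀) : p2 (LW W) = W := by
  unfold p2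
  have h : {p | ∃ s ∈ LW W, s.2.1 = p} = (W : Set V₀) := by
    ext p
    constructor
    · rintro ⟨_, ⟨w, hw, rfl⟩, rfl⟩
      exact hw
    · intro hp
      exact ⟨(p, p, 0), ⟨p, hp, rfl⟩, rfl⟩
  rw [h, Subgroup.closure_eq]

theorem AL_LW {W : Subgroup V₀} {y : V₀} {ρ : MulAut V₀} :
    ρ ∈ AL E₀ (LW W) y ↔ ρ ∈ St E₀ W := by
  constructor
  · rintro ⟨h1, h2⟩
    refine ⟨h1, fun w hw => ?_⟩
    have h3 := h2 (w, w, 0) ⟨w, hw, rfl⟩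
    rw [zpow_zero, mul_one] at h3
    exact h3
  · rintro ⟨h1, h2⟩
    refine ⟨h1, ?_⟩
    rintro _ ⟨w, hw, rfl⟩
    rw [zpow_zero, mul_one]
    exact h2 w hw

theorem TT_LW {W : Subgroup V₀} {y y' : V₀} {τ : G} :
    τ ∈ SO.H82.TT B (LW W) y y' ↔ τ ∈ B.C W ∧ τ * B.i y' * τ⁻¹ = B.i y := by
  constructor
  · rintro ⟨h1, h2⟩
    refine ⟨mem_of_conj B fun w hw => ?_, h1⟩
    have h3 := h2 (w, w, 0) ⟨w, hw, rfl⟩
    rw [zpow_zero, mul_one] at h3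
    exact h3
  · rintro ⟨h1, h2⟩
    refine ⟨h2, ?_⟩
    rintro _ ⟨w, hw, rfl⟩
    rw [zpow_zero, mul_one]
    exact conj_of_mem B h1 hw

variable (E₀ B) in
/-- the weights -/
def wg (W : Subgroup V₀) (y : V₀) : ℂ := (nS E₀ (W ⊔ Subgroup.zpowers y) : ℂ) /
  ((nS E₀ W : ℂ) * Nat.card (B.C (W ⊔ Subgroup.zpowers y)))

/-- the orders for `ρ ∈ AL` -/
theorem cards [Finite G] [Finite V₀] [Fact ℓ.Prime] (cjd : CjdStmt)
    (hM : (ℓ : integralClosure ℤ ℂ) ∈ M) (hℓ : ℓ ≠ 2) (hF : Fq ℓ V₀ E₀) (hB : Sb ℓ M E₀ B)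
    {L : Set (V₀ × V₀ × ℤ)} {y : V₀} {ρ : MulAut V₀} (hρ : ρ ∈ AL E₀ L y) :
    wg E₀ B (p2 L) (ρ⁻¹ y) = (nS E₀ (p1 L ⊔ Subgroup.zpowers y) : ℂ) /
      ((nS E₀ (p2 L) : ℂ) * Nat.card (B.C (p1 L ⊔ Subgroup.zpowers y))) := by
  have h1 := (cjd ℓ M hM hℓ V₀ G E₀ hF B hB ρ hρ.1 (tt B ρ) (tt_spec hB hρ.1).1
    (tt_spec hB hρ.1).2 (p2 L ⊔ Subgroup.zpowers (ρ⁻¹ y))).2.2.1
  have h2 := nS_map hρ.1 (p2 L ⊔ Subgroup.zpowers (ρ⁻¹ y))
  rw [AL_map hρ] at h1 h2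
  unfold wg
  rw [h1, h2]

theorem nS_ne [Finite V₀] (W : Subgroup V₀) : (nS E₀ W : ℂ) ≠ 0 := by
  have : Finite (St E₀ W) := inferInstance
  exact Nat.cast_ne_zero.2 Nat.card_pos.ne'

theorem card_ne [Finite G] (X : Subgroup G) : (Nat.card X : ℂ) ≠ 0 :=
  Nat.cast_ne_zero.2 Nat.card_pos.ne'

open Classical in
/-- the sum of the weights over a fibre -/
theorem one [Fintype G] [Fintype V₀] [Fact ℓ.Prime] (fud : FudStmt) (cjd : CjdStmt)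
    (hM : (ℓ : integralClosure ℤ ℂ) ∈ M) (hℓ : ℓ ≠ 2) (hF : Fq ℓ V₀ E₀) (hB : Sb ℓ M E₀ B)
    (W : Subgroup V₀) (y₀ : V₀) :
    ∑ p ∈ Finset.univ.filter (fun p : G × V₀ => p.1 ∈ B.C W ∧ p.1 * B.i p.2 * p.1⁻¹ = B.i y₀ ∧
      H75.cj p.1 (B.b (W ⊔ Subgroup.zpowers p.2)) = B.b (W ⊔ Subgroup.zpowers y₀)),
      wg E₀ B W p.2 = 1 := by
  have := Fintype.ofFinite (MulAut V₀)
  have h1 := cos hB (Y := W ⊔ Subgroup.zpowers y₀) (y := y₀)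
    (Subgroup.mem_sup_right (Subgroup.mem_zpowers y₀))
    (Finset.univ.filter (fun ρ : MulAut V₀ => ρ ∈ AL E₀ (LW W) y₀))
    (fun ρ hρ => ((Finset.mem_filter.1 hρ).2).1) (fun τ hτ ρ hρ => by
      rw [Finset.mem_filter] at hρ ⊢
      refine ⟨Finset.mem_univ _, ?_⟩
      refine St_AL hρ.2 ?_
      rw [LW_p1]
      exact hτ) (fun _ y' => wg E₀ B W y')
    (Finset.univ.filter (fun p : G × V₀ => p.1 ∈ B.C W ∧ p.1 * B.i p.2 * p.1⁻¹ = B.i y₀ ∧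
      H75.cj p.1 (B.b (W ⊔ Subgroup.zpowers p.2)) = B.b (W ⊔ Subgroup.zpowers y₀)))
    (fun p => by
      rw [Finset.mem_filter]
      have h2 := TT_iff fud cjd hM hℓ hF hB (L := LW W) (y := y₀) (y' := p.2) (τ := p.1)
      rw [TT_LW, LW_p1, LW_p2, and_assoc] at h2
      constructor
      · rintro ⟨-, h3⟩
        obtain ⟨ρ, hρ, h4⟩ := h2.1 h3
        exact ⟨ρ, Finset.mem_filter.2 ⟨Finset.mem_univ _, hρ⟩, h4⟩
      · rintro ⟨ρ, hρ, h4⟩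
        exact ⟨Finset.mem_univ _, h2.2 ⟨ρ, (Finset.mem_filter.1 hρ).2, h4⟩⟩)
  have h3 : ∀ ρ ∈ Finset.univ.filter (fun ρ : MulAut V₀ => ρ ∈ AL E₀ (LW W) y₀),
      ∑ _k : B.C (W ⊔ Subgroup.zpowers y₀), wg E₀ B W (ρ⁻¹ y₀) =
        (nS E₀ (W ⊔ Subgroup.zpowers y₀) : ℂ) / (nS E₀ W : ℂ) := by
    intro ρ hρ
    have h4 := cards cjd hM hℓ hF hB (Finset.mem_filter.1 hρ).2
    rw [LW_p1, LW_p2] at h4
    rw [h4, Finset.sum_const, nsmul_eq_mul, Finset.card_univ, ← Nat.card_eq_fintype_card]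
    have h5 := card_ne (B.C (W ⊔ Subgroup.zpowers y₀))
    have h6 := nS_ne (E₀ := E₀) W
    field_simp
  rw [Finset.sum_congr rfl h3, Finset.sum_const, nsmul_eq_mul] at h1
  have h7 : (Finset.univ.filter (fun ρ : MulAut V₀ => ρ ∈ AL E₀ (LW W) y₀)).card = nS E₀ W := by
    unfold nS
    rw [← Fintype.card_coe, ← Nat.card_eq_fintype_card]
    refine Nat.card_congr (Equiv.subtypeEquivRight fun ρ => ?_)
    rw [Finset.mem_filter, AL_LW]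
    exact and_iff_right (Finset.mem_univ _)
  have h8 := nS_ne (E₀ := E₀) W
  have h9 := nS_ne (E₀ := E₀) (W ⊔ Subgroup.zpowers y₀)
  rw [h7, mul_div_cancel₀ _ h8] at h1
  exact (mul_left_cancel₀ h9 (by rw [mul_one]; exact h1)).symm

end blk

end Pool.Agent.PP.SE.H40
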