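import Pool.Agent.Helper40_ASE.FBR3

/-!
# Squad ASE, row FBR, part 4: the value of a character at `z x`

Author: helper40.
-/

open scoped BigOperators

set_option autoImplicit false
set_option linter.unusedSectionVars false

noncomputable section

namespace Pool.Agent.PP.SE.H40

open Pool.Agent.Helper51_AWC Pool.Agent.Helper79_WRA Pool.Agent.PP Pool.Agent.PP.KF
open Pool.Agent.PP.K9 Pool.Agent.PP.K9.H97 Pool.Agent.PP.H75 Pool.Agent.PP.T3 Pool.Agent.PP.SO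
open Pool.Agent.PP.SD
open Pool.Agent.PP.SO.H82 (memC conj_of_mem mem_of_conj cjW TT_fwd TT_bwd TT_C)
open Pool.Agent.PP.SO.H59 (C_mono i_mem_C)
open Pool.Agent.PP.SD.H30 (mem_C_sup bh_cjX ch_conj)

attribute [local instance] Ideal.Quotient.field

section blk

variable {V₀ G : Type} [CommGroup V₀] [Group G] {ℓ : ℕ}
  {M : Ideal (integralClosure ℤ ℂ)} [M.IsMaximal] {E₀ : Subgroup (MulAut V₀)}
  {B : Bk (FF M) V₀ G}

theorem conj_mem_iff {X : Subgroup G} {g x : G} (hg : g ∈ X) : g⁻¹ * x * g ∈ X ↔ x ∈ X := by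
  constructor
  · intro h
    have h1 := X.mul_mem (X.mul_mem hg h) (X.inv_mem hg)
    have e : g * (g⁻¹ * x * g) * g⁻¹ = x := by group
    rw [e] at h1
    exact h1
  · intro h
    exact X.mul_mem (X.mul_mem (X.inv_mem hg) h) hg

/-- the block of a pair -/
theorem fib_blk [Finite G] [Finite V₀] [Fact ℓ.Prime] (hM : (ℓ : integralClosure ℤ ℂ) ∈ M)
    (hℓ : ℓ ≠ 2) (hF : Fq ℓ V₀ E₀) (hB : Sb ℓ M E₀ B) {W : Subgroup V₀} {χ : G → ℂ}
    (hχ : χ ∈ Ch B W) {z : G} {K : Subgroup G} (hK : ∀ x, x ∈ K ↔ x ∈ B.C W ∧ x * z = z * x)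
    [Fintype K] {g : G} (hg : g ∈ B.C W) {y : V₀} (hy : g * B.i y * g⁻¹ = z) :
    Bx K (H75.cj g (B.b (W ⊔ Subgroup.zpowers y))) ∧
    mulF (fun t : K => B.b W t) (fun t : K => H75.cj g (B.b (W ⊔ Subgroup.zpowers y)) t) =
      (fun t : K => H75.cj g (B.b (W ⊔ Subgroup.zpowers y)) t) ∧
    ∀ x : G, ∑ t : K, eh M (fun t : K => H75.cj g (B.b (W ⊔ Subgroup.zpowers y)) t) t *
        χ (z * x * t) = cx B (W ⊔ Subgroup.zpowers y) y χ (g⁻¹ * x * g) := by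
  have hC : ∀ x, x ∈ K ↔ g⁻¹ * x * g ∈ B.C (W ⊔ Subgroup.zpowers y) := by
    intro x
    rw [hK, mem_C_sup, conj_mem_iff hg]
    refine and_congr_right fun _ => ?_
    rw [← hy]
    constructor
    · intro h
      have e : B.i y * (g⁻¹ * x * g) = g⁻¹ * (g * B.i y * g⁻¹ * x) * g := by group
      rw [e, ← h]
      group
    · intro h
      have e : x * (g * B.i y * g⁻¹) = g * (g⁻¹ * x * g * B.i y) * g⁻¹ := by group
      rw [e, ← h]
      group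
  refine ⟨T3.H62.bx_cj hC (hB.lb _).blk, ?_, fun x => ?_⟩
  · have h1 := H20.mulF_equiv (cjW hC).symm (fun t : B.C (W ⊔ Subgroup.zpowers y) => B.b W t)
      (fun t : B.C (W ⊔ Subgroup.zpowers y) => B.b (W ⊔ Subgroup.zpowers y) t)
    rw [und_le hM hℓ hF hB le_sup_left] at h1
    have e1 : (fun t : K => (fun t : B.C (W ⊔ Subgroup.zpowers y) => B.b W t)
        ((cjW hC).symm t)) = fun t : K => B.b W t := by
      funext t
      exact congrFun (((hB.lb W).blk.ix).inv hg) t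
    rw [e1] at h1
    exact h1
  · symm
    unfold cx
    rw [← finsum_comp_equiv (MulAut.conj g).symm.toEquiv]
    have h1 : ∀ r : G, bh B (W ⊔ Subgroup.zpowers y) ((MulAut.conj g).symm.toEquiv r) *
        χ (B.i y * (g⁻¹ * x * g) * (MulAut.conj g).symm.toEquiv r) =
        PP.ext0 K (eh M (fun t : K => H75.cj g (B.b (W ⊔ Subgroup.zpowers y)) t)) r *
          χ (z * x * r) := by
      intro r
      have e1 : (MulAut.conj g).symm.toEquiv r = g⁻¹ * r * g := rfl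
      rw [e1, bh_cjX hB hC r, ← ch_conj hχ hg (B.i y * (g⁻¹ * x * g) * (g⁻¹ * r * g))]
      congr 2
      rw [← hy]
      group
    rw [finsum_congr h1, H75.sum_sub K _ (fun r hr => by
      unfold PP.ext0
      rw [dif_neg hr, zero_mul]), finsum_eq_sum_of_fintype]
    refine Finset.sum_congr rfl fun t _ => ?_
    unfold PP.ext0
    rw [dif_pos t.2]

open Classical in
/-- the value of `χ` at `z x` -/
theorem val_exp' [Fintype G] [Fintype V₀] [Fact ℓ.Prime] (psc : PscStmt) (fud : FudStmt)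
    (cjd : CjdStmt) (smg : T3.SmgStmt) (hM : (ℓ : integralClosure ℤ ℂ) ∈ M) (hℓ : ℓ ≠ 2)
    (hF : Fq ℓ V₀ E₀) (hB : Sb ℓ M E₀ B) {W : Subgroup V₀} {χ : G → ℂ} (hχ : χ ∈ Ch B W) {z x : G}
    (hz : El ℓ z) (hx : Reg ℓ x) (hc : x * z = z * x) (hzW : z ∈ B.C W) (hxW : x ∈ B.C W) :
    χ (z * x) = ∑ p ∈ Finset.univ.filter (fun p : G × V₀ => p.1 ∈ B.C W ∧
      p.1 * B.i p.2 * p.1⁻¹ = z), wg E₀ B W p.2 *
        cx B (W ⊔ Subgroup.zpowers p.2) p.2 χ (p.1⁻¹ * x * p.1) := by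
  obtain ⟨K, hK0⟩ : ∃ K : Subgroup G, K = B.C W ⊓ Cu z := ⟨_, rfl⟩
  have hK : ∀ x, x ∈ K ↔ x ∈ B.C W ∧ x * z = z * x := by
    intro x
    rw [hK0, Subgroup.mem_inf, Subgroup.mem_centralizer_singleton_iff]
  have := Fintype.ofFinite K
  obtain ⟨hid, hval⟩ := val_sum smg hM (hB.lb W).blk.blk.1 hχ.2 hzW hz hK
  have hxK : x ∈ K := (hK x).2 ⟨hxW, hc⟩
  have h1 := hval ⟨x, hxK⟩ (SD.H95.reg_coe.1 hx)
  obtain ⟨hfin, hsum⟩ := SO.H13.blk_sum (M := M) _ hid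
  rw [finsum_mem_eq_finite_toFinset_sum _ hfin] at hsum
  obtain ⟨V, hV⟩ : ∃ V : (K → FF M) → ℂ, V = fun β => ∑ t : K, eh M β t * χ (z * x * t) :=
    ⟨_, rfl⟩
  have h2 : χ (z * x) = ∑ β ∈ hfin.toFinset, V β := by
    rw [hV]
    rw [Finset.sum_comm]
    refine h1.trans (Finset.sum_congr rfl fun t _ => ?_)
    rw [hsum, Finset.sum_apply, Finset.sum_mul]
  obtain ⟨φ, hφ⟩ : ∃ φ : G × V₀ → K → FF M, ∀ p, φ p =
      fun t : K => H75.cj p.1 (B.b (W ⊔ Subgroup.zpowers p.2)) t := ⟨_, fun _ => rfl⟩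
  have hmaps : ∀ p ∈ Finset.univ.filter (fun p : G × V₀ => p.1 ∈ B.C W ∧
      p.1 * B.i p.2 * p.1⁻¹ = z), φ p ∈ hfin.toFinset := by
    intro p hp
    have hp2 := (Finset.mem_filter.1 hp).2
    obtain ⟨h3, h4, -⟩ := fib_blk hM hℓ hF hB hχ hK hp2.1 hp2.2
    rw [Set.Finite.mem_toFinset, hφ]
    exact ⟨h3.blk, h4⟩
  rw [h2, ← Finset.sum_fiberwise_of_maps_to hmaps]
  refine Finset.sum_congr rfl fun β hβ => ?_
  rw [Set.Finite.mem_toFinset] at hβ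
  have hβe : (fun t : K => H75.ext0 K β t) = β := funext (H75.ext0_apply K β)
  have hβB : Bx K (H75.ext0 K β) := ⟨H75.ext0_supp K β, by rw [hβe]; exact hβ.1⟩
  obtain ⟨g₀, hg₀, y₀, hy₀, hβ₀⟩ := psc ℓ M hM hℓ V₀ G E₀ hF B hB W z hzW hz (H75.ext0 K β)
    (by rw [← hK0]; exact hβB) (by
      have h5 : mulF (fun t : K => B.b W t) (fun t : K => H75.ext0 K β t) =
          fun t : K => H75.ext0 K β t := by
        rw [hβe]
        exact hβ.2
      subst hK0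
      exact h5)
  have h3 : ∀ p ∈ (Finset.univ.filter (fun p : G × V₀ => p.1 ∈ B.C W ∧
      p.1 * B.i p.2 * p.1⁻¹ = z)).filter (fun p => φ p = β), wg E₀ B W p.2 *
        cx B (W ⊔ Subgroup.zpowers p.2) p.2 χ (p.1⁻¹ * x * p.1) = wg E₀ B W p.2 * V β := by
    intro p hp
    obtain ⟨hp1, hp2⟩ := Finset.mem_filter.1 hp
    have hp3 := (Finset.mem_filter.1 hp1).2
    obtain ⟨-, -, h4⟩ := fib_blk hM hℓ hF hB hχ hK hp3.1 hp3.2
    rw [← h4 x, hV, ← hp2, hφ]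
  rw [Finset.sum_congr rfl h3, ← Finset.sum_mul]
  have h4 : ∑ p ∈ (Finset.univ.filter (fun p : G × V₀ => p.1 ∈ B.C W ∧
      p.1 * B.i p.2 * p.1⁻¹ = z)).filter (fun p => φ p = β), wg E₀ B W p.2 = 1 := by
    rw [← one fud cjd hM hℓ hF hB W y₀]
    refine Finset.sum_nbij' (fun p => (g₀⁻¹ * p.1, p.2)) (fun p => (g₀ * p.1, p.2)) ?_ ?_ ?_ ?_ ?_
    · intro p hp
      obtain ⟨hp1, hp2⟩ := Finset.mem_filter.1 hp
      obtain ⟨-, hp3, hp4⟩ := Finset.mem_filter.1 hp1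
      rw [Finset.mem_filter]
      refine ⟨Finset.mem_univ _, (B.C W).mul_mem ((B.C W).inv_mem hg₀) hp3, ?_, ?_⟩
      · show g₀⁻¹ * p.1 * B.i p.2 * (g₀⁻¹ * p.1)⁻¹ = B.i y₀
        have e : g₀⁻¹ * p.1 * B.i p.2 * (g₀⁻¹ * p.1)⁻¹ = g₀⁻¹ * (p.1 * B.i p.2 * p.1⁻¹) * g₀ := by
          group
        rw [e, hp4, hy₀]
        group
      · show H75.cj (g₀⁻¹ * p.1) (B.b (W ⊔ Subgroup.zpowers p.2)) = _
        obtain ⟨h5, -, -⟩ := fib_blk hM hℓ hF hB hχ hK hp3 hp4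
        have h6 : H75.cj p.1 (B.b (W ⊔ Subgroup.zpowers p.2)) = H75.ext0 K β := by
          apply eq_of_res h5.supp (H75.ext0_supp K β)
          rw [hβe, ← hp2, hφ]
        rw [← cj_cj, h6, hβ₀, cj_inv_cj]
    · intro p hp
      obtain ⟨-, hp3, hp4, hp5⟩ := Finset.mem_filter.1 hp
      have hp6 : g₀ * p.1 ∈ B.C W := (B.C W).mul_mem hg₀ hp3
      have hp7 : g₀ * p.1 * B.i p.2 * (g₀ * p.1)⁻¹ = z := by
        have e : g₀ * p.1 * B.i p.2 * (g₀ * p.1)⁻¹ = g₀ * (p.1 * B.i p.2 * p.1⁻¹) * g₀⁻¹ := by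
          group
        rw [e, hp4, hy₀]
      rw [Finset.mem_filter, Finset.mem_filter]
      refine ⟨⟨Finset.mem_univ _, hp6, hp7⟩, ?_⟩
      rw [hφ]
      show (fun t : K => H75.cj (g₀ * p.1) (B.b (W ⊔ Subgroup.zpowers p.2)) t) = β
      rw [← cj_cj, hp5, ← hβ₀, hβe]
    · intro p _
      show (g₀ * (g₀⁻¹ * p.1), p.2) = p
      rw [mul_inv_cancel_left]
    · intro p _
      show (g₀⁻¹ * (g₀ * p.1), p.2) = p
      rw [inv_mul_cancel_left]
    · intro p _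
      rfl
  rw [h4, one_mul]

end blk

end Pool.Agent.PP.SE.H40
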