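import Pool.Agent.Helper40_ASE.FBR4
import Pool.Agent.Helper45_ASD.TFA

/-!
# Squad ASE, row FBR, part 5: sums over the pairs of commuting elements

Author: helper40.
-/

open scoped BigOperators

set_option autoImplicit false
set_option linter.unusedSectionVars false

noncomputable section

namespace Pool.Agent.PP.SE.H40

open Pool.Agent.Helper51_AWC Pool.Agent.Helper79_WRA Pool.Agent.PP Pool.Agent.PP.KF
open Pool.Agent.PP.K9 Pool.Agent.PP.K9.H97 Pool.Agent.PP.H75 Pool.Agent.PP.T3 Pool.Agent.PP.SO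
open Pool.Agent.PP.SD
open Pool.Agent.PP.SO.H82 (memC conj_of_mem mem_of_conj cjW TT_fwd TT_bwd TT_C)
open Pool.Agent.PP.SO.H59 (C_mono i_mem_C)
open Pool.Agent.PP.SD.H30 (mem_C_sup bh_cjX ch_conj)

attribute [local instance] Ideal.Quotient.field

open Classical in
/-- the decomposition of the elements -/
theorem jordan {G : Type} [Group G] [Fintype G] {ℓ n m : ℕ} [Fact ℓ.Prime] (h : PE ℓ n m G)
    (F : G → ℂ) : ∑ X : G, F X =
      ∑ z : G, ∑ x : G, if El ℓ z ∧ Reg ℓ x ∧ x * z = z * x then F (z * x) else 0 := by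
  have h1 : ∀ z : G, ∑ x : G, (if El ℓ z ∧ Reg ℓ x ∧ x * z = z * x then F (z * x) else 0) =
      ∑ X : G, if X ^ m = z then F X else 0 := by
    intro z
    rw [← Equiv.sum_comp (Equiv.mulLeft z) (fun X : G => if X ^ m = z then F X else 0)]
    refine Finset.sum_congr rfl fun x _ => ?_
    show _ = if (z * x) ^ m = z then F (z * x) else 0
    by_cases hz : El ℓ z
    · have h2 := SD.H45.part_iff h hz (x := x)
      by_cases h3 : (z * x) ^ m = z
      · rw [if_pos h3, if_pos ⟨hz, (h2.1 h3).2, (h2.1 h3).1⟩]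
      · rw [if_neg h3, if_neg (fun h4 => h3 (h2.2 ⟨h4.2.2, h4.2.1⟩))]
    · rw [if_neg (fun h4 => hz h4.1), if_neg (fun h4 => hz (by
        rw [← h4]
        exact SO.H70.el_pow h _))]
  rw [Finset.sum_congr rfl fun z _ => h1 z, Finset.sum_comm]
  refine Finset.sum_congr rfl fun X _ => ?_
  rw [Finset.sum_ite_eq, if_pos (Finset.mem_univ _)]

theorem re4 {A₁ A₂ A₃ A₄ : Type} [Fintype A₁] [Fintype A₂] [Fintype A₃] [Fintype A₄]
    (T : A₁ → A₂ → A₃ → A₄ → ℂ) :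
    ∑ a, ∑ b, ∑ c, ∑ d, T a b c d = ∑ c, ∑ d, ∑ b, ∑ a, T a b c d := by
  calc ∑ a, ∑ b, ∑ c, ∑ d, T a b c d = ∑ a, ∑ c, ∑ b, ∑ d, T a b c d :=
        Finset.sum_congr rfl fun a _ => Finset.sum_comm
    _ = ∑ c, ∑ a, ∑ b, ∑ d, T a b c d := Finset.sum_comm
    _ = ∑ c, ∑ a, ∑ d, ∑ b, T a b c d :=
        Finset.sum_congr rfl fun c _ => Finset.sum_congr rfl fun a _ => Finset.sum_comm
    _ = ∑ c, ∑ d, ∑ a, ∑ b, T a b c d := Finset.sum_congr rfl fun c _ => Finset.sum_comm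
    _ = ∑ c, ∑ d, ∑ b, ∑ a, T a b c d :=
        Finset.sum_congr rfl fun c _ => Finset.sum_congr rfl fun d _ => Finset.sum_comm

section blk

variable {V₀ G : Type} [CommGroup V₀] [Group G] {ℓ : ℕ}
  {M : Ideal (integralClosure ℤ ℂ)} [M.IsMaximal] {E₀ : Subgroup (MulAut V₀)}
  {B : Bk (FF M) V₀ G}

/-- `cx` vanishes outside of `C W` -/
theorem cx_out [Finite G] [Finite V₀] {W : Subgroup V₀} {χ : G → ℂ} (hχ : χ ∈ Ch B W) {y : V₀} {s : G}
    (hs : s ∉ B.C W) : cx B (W ⊔ Subgroup.zpowers y) y χ s = 0 := by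
  unfold cx
  refine (finsum_congr fun r => ?_).trans finsum_zero
  by_cases hr : r ∈ B.C (W ⊔ Subgroup.zpowers y)
  · rw [hχ.1 _ (fun h => hs ?_), mul_zero]
    have h1 := (B.C W).mul_mem ((B.C W).mul_mem ((B.C W).inv_mem (i_mem_C y W)) h)
      ((B.C W).inv_mem (C_mono le_sup_left hr))
    have e : (B.i y)⁻¹ * (B.i y * s * r) * r⁻¹ = s := by group
    rw [e] at h1
    exact h1
  · rw [SO.H10L.bh_supp B _ _ hr, zero_mul]

/-- `cx` is a class function -/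
theorem cx_conj [Finite G] {W : Subgroup V₀} {χ : G → ℂ} (hχ : χ ∈ Ch B W) {y : V₀} {k : G}
    (hk : k ∈ B.C (W ⊔ Subgroup.zpowers y)) (s : G) :
    cx B (W ⊔ Subgroup.zpowers y) y χ (k * s * k⁻¹) =
      cx B (W ⊔ Subgroup.zpowers y) y χ s := by
  unfold cx
  rw [← finsum_comp_equiv (MulAut.conj k).toEquiv]
  refine finsum_congr fun r => ?_
  have e1 : (MulAut.conj k).toEquiv r = k * r * k⁻¹ := rfl
  have hk1 := (mem_C_sup W y k).1 hk
  rw [e1, SO.H10L.bh_conj B _ k hk]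
  congr 1
  rw [← ch_conj hχ hk1.1 (B.i y * s * r)]
  congr 1
  have e2 : B.i y * (k * s * k⁻¹) * (k * r * k⁻¹) = B.i y * k * s * r * k⁻¹ := by group
  rw [e2, hk1.2]
  group

open Classical in
/-- the value of `χ` at `z x` -/
theorem val_exp [Fintype G] [Fintype V₀] [Fact ℓ.Prime] (psc : PscStmt) (fud : FudStmt)
    (cjd : CjdStmt) (smg : T3.SmgStmt) (hM : (ℓ : integralClosure ℤ ℂ) ∈ M) (hℓ : ℓ ≠ 2)
    (hF : Fq ℓ V₀ E₀) (hB : Sb ℓ M E₀ B) {n m : ℕ} (hPE : PE ℓ n m G) {W : Subgroup V₀}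
    {χ : G → ℂ} (hχ : χ ∈ Ch B W) {z x : G} (hz : El ℓ z) (hx : Reg ℓ x) (hc : x * z = z * x) :
    χ (z * x) = ∑ g : G, ∑ y : V₀, if g ∈ B.C W ∧ g * B.i y * g⁻¹ = z then wg E₀ B W y *
        cx B (W ⊔ Subgroup.zpowers y) y χ (g⁻¹ * x * g) else 0 := by
  by_cases hW : z ∈ B.C W ∧ x ∈ B.C W
  · rw [val_exp' psc fud cjd smg hM hℓ hF hB hχ hz hx hc hW.1 hW.2, Finset.sum_filter,
      Fintype.sum_prod_type]
  · have h1 : z * x ∉ B.C W := by
      intro h2
      apply hW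
      have h3 : z ∈ B.C W := by
        rw [← (SD.H45.part_iff hPE hz).2 ⟨hc, hx⟩]
        exact (B.C W).pow_mem h2 m
      refine ⟨h3, ?_⟩
      have h4 := (B.C W).mul_mem ((B.C W).inv_mem h3) h2
      rw [inv_mul_cancel_left] at h4
      exact h4
    rw [hχ.1 _ h1]
    symm
    refine Finset.sum_eq_zero fun g _ => Finset.sum_eq_zero fun y _ => ?_
    by_cases h2 : g ∈ B.C W ∧ g * B.i y * g⁻¹ = z
    · rw [if_pos h2, cx_out hχ, mul_zero]
      intro h3
      apply hW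
      refine ⟨?_, (conj_mem_iff h2.1).1 h3⟩
      rw [← h2.2]
      exact (B.C W).mul_mem ((B.C W).mul_mem h2.1 (i_mem_C y W)) ((B.C W).inv_mem h2.1)
    · rw [if_neg h2]

theorem el_i (hF : Fq ℓ V₀ E₀) (y : V₀) : El ℓ (B.i y) :=
  ⟨1, by rw [pow_one, ← map_pow, hF.ex, map_one]⟩

theorem reg_conj {g s : G} : Reg ℓ (g * s * g⁻¹) ↔ Reg ℓ s := by
  unfold Reg
  have h : orderOf (g * s * g⁻¹) = orderOf s := by
    have h1 := MulEquiv.orderOf_eq (MulAut.conj g) s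
    rw [MulAut.conj_apply] at h1
    exact h1
  rw [h]

open Classical in
/-- the sums over the commuting pairs -/
theorem expn [Fintype G] [Fintype V₀] [Fact ℓ.Prime] (psc : PscStmt) (fud : FudStmt)
    (cjd : CjdStmt) (smg : T3.SmgStmt) (hM : (ℓ : integralClosure ℤ ℂ) ∈ M) (hℓ : ℓ ≠ 2)
    (hF : Fq ℓ V₀ E₀) (hB : Sb ℓ M E₀ B) {n m : ℕ} (hPE : PE ℓ n m G) {W : Subgroup V₀}
    {χ : G → ℂ} (hχ : χ ∈ Ch B W) (Θ : G → G → ℂ)
    (hΘ : ∀ g ∈ B.C W, ∀ z x, Θ (g * z * g⁻¹) (g * x * g⁻¹) = Θ z x) :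
    ∑ z : G, ∑ x : G, (if El ℓ z ∧ Reg ℓ x ∧ x * z = z * x then χ (z * x) * Θ z x else 0) =
      (Nat.card (B.C W) : ℂ) * ∑ y : V₀, wg E₀ B W y *
        ∑ s : G, (if s ∈ B.C (W ⊔ Subgroup.zpowers y) ∧ Reg ℓ s then
          cx B (W ⊔ Subgroup.zpowers y) y χ s * Θ (B.i y) s else 0) := by
  obtain ⟨T, hT⟩ : ∃ T : G → G → G → V₀ → ℂ, ∀ z x g y, T z x g y =
      if El ℓ z ∧ Reg ℓ x ∧ x * z = z * x then (if g ∈ B.C W ∧ g * B.i y * g⁻¹ = z then
        wg E₀ B W y * cx B (W ⊔ Subgroup.zpowers y) y χ (g⁻¹ * x * g) * Θ z x else 0) else 0 :=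
    ⟨_, fun _ _ _ _ => rfl⟩
  have h1 : ∀ z x : G, (if El ℓ z ∧ Reg ℓ x ∧ x * z = z * x then χ (z * x) * Θ z x else 0) =
      ∑ g : G, ∑ y : V₀, T z x g y := by
    intro z x
    by_cases h2 : El ℓ z ∧ Reg ℓ x ∧ x * z = z * x
    · rw [if_pos h2, val_exp psc fud cjd smg hM hℓ hF hB hPE hχ h2.1 h2.2.1 h2.2.2,
        Finset.sum_mul]
      refine Finset.sum_congr rfl fun g _ => ?_
      rw [Finset.sum_mul]
      refine Finset.sum_congr rfl fun y _ => ?_
      rw [hT, if_pos h2, ite_mul, zero_mul]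
    · rw [if_neg h2]
      symm
      refine Finset.sum_eq_zero fun g _ => Finset.sum_eq_zero fun y _ => ?_
      rw [hT, if_neg h2]
  rw [Finset.sum_congr rfl fun z _ => Finset.sum_congr rfl fun x _ => h1 z x, re4]
  have h2 : ∀ g : G, ∀ y : V₀, ∑ x : G, ∑ z : G, T z x g y = if g ∈ B.C W then
      wg E₀ B W y * ∑ s : G, (if s ∈ B.C (W ⊔ Subgroup.zpowers y) ∧ Reg ℓ s then
          cx B (W ⊔ Subgroup.zpowers y) y χ s * Θ (B.i y) s else 0) else 0 := by
    intro g y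
    by_cases hg : g ∈ B.C W
    · rw [if_pos hg, ← Equiv.sum_comp (MulAut.conj g).toEquiv, Finset.mul_sum]
      refine Finset.sum_congr rfl fun s _ => ?_
      have e1 : (MulAut.conj g).toEquiv s = g * s * g⁻¹ := rfl
      rw [e1, Finset.sum_eq_single (g * B.i y * g⁻¹)]
      · rw [hT]
        have e2 : g⁻¹ * (g * s * g⁻¹) * g = s := by group
        rw [if_pos (⟨hg, rfl⟩ : g ∈ B.C W ∧ g * B.i y * g⁻¹ = g * B.i y * g⁻¹), e2,
          hΘ g hg (B.i y) s]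
        have h3 : El ℓ (g * B.i y * g⁻¹) := by
          obtain ⟨j, hj⟩ := el_i (B := B) hF y
          exact ⟨j, by rw [conj_pow, hj, mul_one, mul_inv_cancel]⟩
        have h4 : g * s * g⁻¹ * (g * B.i y * g⁻¹) = g * B.i y * g⁻¹ * (g * s * g⁻¹) ↔
            B.i y * s = s * B.i y := by
          have e3 : g * s * g⁻¹ * (g * B.i y * g⁻¹) = g * (s * B.i y) * g⁻¹ := by group
          have e4 : g * B.i y * g⁻¹ * (g * s * g⁻¹) = g * (B.i y * s) * g⁻¹ := by group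
          rw [e3, e4]
          constructor
          · intro h
            exact (mul_left_cancel (mul_right_cancel h)).symm
          · intro h
            rw [h]
        by_cases hs : s ∈ B.C W
        · by_cases h5 : s ∈ B.C (W ⊔ Subgroup.zpowers y) ∧ Reg ℓ s
          · rw [if_pos h5, if_pos ⟨h3, reg_conj.2 h5.2, h4.2 ((mem_C_sup W y s).1 h5.1).2⟩]
            ring
          · rw [if_neg h5, if_neg (fun h6 => h5 ⟨(mem_C_sup W y s).2 ⟨hs, h4.1 h6.2.2⟩,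
              reg_conj.1 h6.2.1⟩), mul_zero]
        · rw [cx_out hχ hs, mul_zero, zero_mul, ite_self, ite_self, mul_zero]
      · intro z _ hz
        rw [hT, if_neg (fun h : g ∈ B.C W ∧ g * B.i y * g⁻¹ = z => hz h.2.symm), ite_self]
      · intro h
        exact absurd (Finset.mem_univ _) h
    · rw [if_neg hg]
      refine Finset.sum_eq_zero fun x _ => Finset.sum_eq_zero fun z _ => ?_
      rw [hT, if_neg (fun h : g ∈ B.C W ∧ g * B.i y * g⁻¹ = z => hg h.1), ite_self]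
  rw [Finset.sum_congr rfl fun g _ => Finset.sum_congr rfl fun y _ => h2 g y]
  have h3 : ∀ g : G, ∑ y : V₀, (if g ∈ B.C W then
      wg E₀ B W y * ∑ s : G, (if s ∈ B.C (W ⊔ Subgroup.zpowers y) ∧ Reg ℓ s then
          cx B (W ⊔ Subgroup.zpowers y) y χ s * Θ (B.i y) s else 0) else 0) =
      if g ∈ B.C W then ∑ y : V₀, wg E₀ B W y * ∑ s : G,
        (if s ∈ B.C (W ⊔ Subgroup.zpowers y) ∧ Reg ℓ s then
          cx B (W ⊔ Subgroup.zpowers y) y χ s * Θ (B.i y) s else 0) else 0 := by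
    intro g
    by_cases hg : g ∈ B.C W
    · rw [if_pos hg]
      exact Finset.sum_congr rfl fun y _ => if_pos hg
    · rw [if_neg hg]
      exact Finset.sum_eq_zero fun y _ => if_neg hg
  rw [Finset.sum_congr rfl fun g _ => h3 g, ← Finset.sum_filter, Finset.sum_const, nsmul_eq_mul]
  congr 2
  rw [Nat.card_eq_fintype_card, Fintype.card_subtype]

end blk

end Pool.Agent.PP.SE.H40
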