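import Pool.Agent.Helper40_ASE.FBR5

/-!
# Squad ASE, row FBR, part 6: the sums `SL`

Author: helper40.
-/

open scoped BigOperators

set_option autoImplicit false
set_option linter.unusedSectionVars false

noncomputable section

namespace Pool.Agent.PP.SE.H40

open Pool.Agent.Helper51_AWC Pool.Agent.Helper79_WRA Pool.Agent.PP Pool.Agent.PP.KF
open Pool.Agent.PP.K9 Pool.Agent.PP.K9.H97 Pool.Agent.PP.H75 Pool.Agent.PP.T3 Pool.Agent.PP.SO
open Pool.Agent.PP.SD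
open Pool.Agent.PP.SO.H82 (memC conj_of_mem mem_of_conj cjW TT_fwd TT_bwd TT_C)
open Pool.Agent.PP.SO.H59 (C_mono i_mem_C)
open Pool.Agent.PP.SD.H30 (mem_C_sup bh_cjX ch_conj)

attribute [local instance] Ideal.Quotient.field

section blk

variable {V₀ G : Type} [CommGroup V₀] [Group G] {ℓ : ℕ}
  {M : Ideal (integralClosure ℤ ℂ)} [M.IsMaximal] {E₀ : Subgroup (MulAut V₀)}
  {B : Bk (FF M) V₀ G}

theorem ch_star [Finite G] {W : Subgroup V₀} {χ : G → ℂ} (hχ : χ ∈ Ch B W) (g : G) :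
    χ g⁻¹ = starRingEnd ℂ (χ g) := by
  by_cases hg : g ∈ B.C W
  · exact (H94.irr_star hχ.2.1 ⟨g, hg⟩).symm
  · rw [hχ.1 g hg, hχ.1 g⁻¹ (fun h => hg ((Subgroup.inv_mem_iff _).1 h)), map_zero]

theorem wg_star (W : Subgroup V₀) (y : V₀) : starRingEnd ℂ (wg E₀ B W y) = wg E₀ B W y := by
  unfold wg
  rw [map_div₀, map_mul, Complex.conj_natCast, Complex.conj_natCast, Complex.conj_natCast]

/-- the condition -/
def cnd (B : Bk (FF M) V₀ G) (L : Set (V₀ × V₀ × ℤ)) (z u : G) : Prop :=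
  ∀ s ∈ L, u * B.i s.2.1 * u⁻¹ = B.i s.1 * z ^ s.2.2

theorem cnd_mul {L : Set (V₀ × V₀ × ℤ)} {g : G} (hg : g ∈ B.C (p1 L)) (z v : G) :
    cnd B L (g * z * g⁻¹) (g * v) ↔ cnd B L z v := by
  unfold cnd
  refine forall₂_congr fun s hs => ?_
  have h1 : g * B.i s.1 * g⁻¹ = B.i s.1 :=
    conj_of_mem B hg (Subgroup.subset_closure ⟨s, hs, rfl⟩)
  have e1 : g * v * B.i s.2.1 * (g * v)⁻¹ = g * (v * B.i s.2.1 * v⁻¹) * g⁻¹ := by group
  have e2 : B.i s.1 * (g * z * g⁻¹) ^ s.2.2 = g * (B.i s.1 * z ^ s.2.2) * g⁻¹ := by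
    conv_lhs => rw [← h1]
    rw [conj_zpow]
    group
  rw [e1, e2]
  constructor
  · intro h
    exact mul_left_cancel (mul_right_cancel h)
  · intro h
    rw [h]

theorem cnd_TT {L : Set (V₀ × V₀ × ℤ)} {g : G} (hg : g ∈ B.C (p2 L)) (y y' : V₀) (τ : G) :
    (cnd B L (B.i y) (τ * g⁻¹) ∧ g * B.i y' * g⁻¹ = (τ * g⁻¹)⁻¹ * B.i y * (τ * g⁻¹)) ↔
      τ ∈ SO.H82.TT B L y y' := by
  unfold cnd SO.H82.TT
  rw [Set.mem_ofPred_eq, and_comm]
  refine and_congr ?_ ?_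
  · have e : (τ * g⁻¹)⁻¹ * B.i y * (τ * g⁻¹) = g * (τ⁻¹ * B.i y * τ) * g⁻¹ := by group
    rw [e]
    constructor
    · intro h
      rw [mul_left_cancel (mul_right_cancel h)]
      group
    · intro h
      rw [← h]
      group
  · refine forall₂_congr fun s hs => ?_
    have h1 : g⁻¹ * B.i s.2.1 * g = B.i s.2.1 := by
      have h2 := conj_of_mem B ((B.C (p2 L)).inv_mem hg)
        (Subgroup.subset_closure ⟨s, hs, rfl⟩ : s.2.1 ∈ p2 L)
      rw [inv_inv] at h2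
      exact h2
    have e1 : τ * g⁻¹ * B.i s.2.1 * (τ * g⁻¹)⁻¹ = τ * (g⁻¹ * B.i s.2.1 * g) * τ⁻¹ := by group
    rw [e1, h1, map_mul, map_zpow]

open Classical in
/-- the inner sum -/
def Th (B : Bk (FF M) V₀ G) [Fintype G] (L : Set (V₀ × V₀ × ℤ)) (χ' : G → ℂ) (z x : G) : ℂ :=
  ∑ u : G, if cnd B L z u then starRingEnd ℂ (χ' (u⁻¹ * (z * x) * u)) else 0

theorem Th_conj [Fintype G] {L : Set (V₀ × V₀ × ℤ)} {χ' : G → ℂ} {g : G}
    (hg : g ∈ B.C (p1 L)) (z x : G) :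
    Th B L χ' (g * z * g⁻¹) (g * x * g⁻¹) = Th B L χ' z x := by
  classical
  unfold Th
  rw [← Equiv.sum_comp (Equiv.mulLeft g)]
  refine Finset.sum_congr rfl fun v _ => ?_
  have e0 : (Equiv.mulLeft g) v = g * v := rfl
  have e1 : (g * v)⁻¹ * (g * z * g⁻¹ * (g * x * g⁻¹)) * (g * v) = v⁻¹ * (z * x) * v := by group
  rw [e0, e1]
  by_cases h : cnd B L z v
  · rw [if_pos h, if_pos ((cnd_mul hg z v).2 h)]
  · rw [if_neg h, if_neg (fun h' => h ((cnd_mul hg z v).1 h'))]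

open Classical in
/-- the inner sum at `i(y)` -/
theorem Th_eq [Fintype G] [Fintype V₀] [Fact ℓ.Prime] (psc : PscStmt) (fud : FudStmt)
    (cjd : CjdStmt) (smg : T3.SmgStmt) (hM : (ℓ : integralClosure ℤ ℂ) ∈ M) (hℓ : ℓ ≠ 2)
    (hF : Fq ℓ V₀ E₀) (hB : Sb ℓ M E₀ B) {n m : ℕ} (hPE : PE ℓ n m G)
    {L : Set (V₀ × V₀ × ℤ)} {χ' : G → ℂ} (hχ' : χ' ∈ Ch B (p2 L)) {y : V₀} {s : G}
    (hs : B.i y * s = s * B.i y) (hr : Reg ℓ s) :
    Th B L χ' (B.i y) s = (Nat.card (B.C (p2 L)) : ℂ) * ∑ y' : V₀, ∑ τ : G,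
      if τ ∈ SO.H82.TT B L y y' then wg E₀ B (p2 L) y' *
        starRingEnd ℂ (cx B (p2 L ⊔ Subgroup.zpowers y') y' χ' (τ⁻¹ * s * τ)) else 0 := by
  obtain ⟨T, hT⟩ : ∃ T : G → G → V₀ → ℂ, ∀ u g y', T u g y' =
      if g ∈ B.C (p2 L) then (if cnd B L (B.i y) u ∧ g * B.i y' * g⁻¹ = u⁻¹ * B.i y * u then
        wg E₀ B (p2 L) y' * starRingEnd ℂ (cx B (p2 L ⊔ Subgroup.zpowers y') y' χ'
          (g⁻¹ * (u⁻¹ * s * u) * g)) else 0) else 0 :=
    ⟨_, fun _ _ _ => rfl⟩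
  have h1 : ∀ u : G, (if cnd B L (B.i y) u then
      starRingEnd ℂ (χ' (u⁻¹ * (B.i y * s) * u)) else 0) = ∑ g : G, ∑ y' : V₀, T u g y' := by
    intro u
    by_cases hu : cnd B L (B.i y) u
    · have e : u⁻¹ * (B.i y * s) * u = (u⁻¹ * B.i y * u) * (u⁻¹ * s * u) := by group
      have hz : El ℓ (u⁻¹ * B.i y * u) := by
        obtain ⟨j, hj⟩ := el_i (B := B) hF y
        refine ⟨j, ?_⟩
        have h2 := conj_pow (i := ℓ ^ j) (a := u⁻¹) (b := B.i y)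
        rw [inv_inv] at h2
        rw [h2, hj]
        group
      have hx : Reg ℓ (u⁻¹ * s * u) := by
        have h2 := reg_conj (ℓ := ℓ) (g := u⁻¹) (s := s)
        rw [inv_inv] at h2
        exact h2.2 hr
      have hc : (u⁻¹ * s * u) * (u⁻¹ * B.i y * u) = (u⁻¹ * B.i y * u) * (u⁻¹ * s * u) := by
        have e1 : (u⁻¹ * s * u) * (u⁻¹ * B.i y * u) = u⁻¹ * (s * B.i y) * u := by group
        rw [e1, ← hs]
        group
      rw [if_pos hu, e, val_exp psc fud cjd smg hM hℓ hF hB hPE hχ' hz hx hc, map_sum]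
      refine Finset.sum_congr rfl fun g _ => ?_
      rw [map_sum]
      refine Finset.sum_congr rfl fun y' _ => ?_
      rw [hT]
      by_cases hg : g ∈ B.C (p2 L)
      · rw [if_pos hg]
        by_cases h2 : g * B.i y' * g⁻¹ = u⁻¹ * B.i y * u
        · rw [if_pos ⟨hg, h2⟩, if_pos ⟨hu, h2⟩, map_mul, wg_star]
        · rw [if_neg (fun h => h2 h.2), if_neg (fun h => h2 h.2), map_zero]
      · rw [if_neg hg, if_neg (fun h => hg h.1), map_zero]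
    · rw [if_neg hu]
      symm
      refine Finset.sum_eq_zero fun g _ => Finset.sum_eq_zero fun y' _ => ?_
      rw [hT, if_neg (fun h : cnd B L (B.i y) u ∧ _ => hu h.1), ite_self]
  unfold Th
  rw [Finset.sum_congr rfl fun u _ => h1 u, Finset.sum_comm]
  obtain ⟨R, hR⟩ : ∃ R : V₀ → ℂ, R = fun y' => ∑ τ : G,
      if τ ∈ SO.H82.TT B L y y' then wg E₀ B (p2 L) y' *
        starRingEnd ℂ (cx B (p2 L ⊔ Subgroup.zpowers y') y' χ' (τ⁻¹ * s * τ)) else 0 := ⟨_, rfl⟩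
  have h2 : ∀ g : G, ∑ u : G, ∑ y' : V₀, T u g y' = if g ∈ B.C (p2 L) then ∑ y', R y' else 0 := by
    intro g
    rw [Finset.sum_comm]
    by_cases hg : g ∈ B.C (p2 L)
    · rw [if_pos hg]
      refine Finset.sum_congr rfl fun y' _ => ?_
      rw [hR, ← Equiv.sum_comp (Equiv.mulRight g⁻¹)]
      refine Finset.sum_congr rfl fun τ _ => ?_
      have e0 : (Equiv.mulRight g⁻¹) τ = τ * g⁻¹ := rfl
      have e1 : g⁻¹ * ((τ * g⁻¹)⁻¹ * s * (τ * g⁻¹)) * g = τ⁻¹ * s * τ := by group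
      rw [e0, hT, if_pos hg, e1]
      by_cases h3 : τ ∈ SO.H82.TT B L y y'
      · rw [if_pos h3, if_pos ((cnd_TT hg y y' τ).2 h3)]
      · rw [if_neg h3, if_neg (fun h => h3 ((cnd_TT hg y y' τ).1 h))]
    · rw [if_neg hg]
      refine Finset.sum_eq_zero fun y' _ => Finset.sum_eq_zero fun u _ => ?_
      rw [hT, if_neg hg]
  rw [Finset.sum_congr rfl fun g _ => h2 g, ← Finset.sum_filter, Finset.sum_const, nsmul_eq_mul,
    Nat.card_eq_fintype_card, Fintype.card_subtype, hR]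

open Classical in
/-- the regular sum -/
def JJ (ℓ : ℕ) (B : Bk (FF M) V₀ G) [Fintype G] (L : Set (V₀ × V₀ × ℤ)) (χ χ' : G → ℂ)
    (y y' : V₀) (τ : G) : ℂ :=
  ∑ s : G, if s ∈ B.C (p1 L ⊔ Subgroup.zpowers y) ∧ Reg ℓ s then
    cx B (p1 L ⊔ Subgroup.zpowers y) y χ s *
      starRingEnd ℂ (cx B (p2 L ⊔ Subgroup.zpowers y') y' χ' (τ⁻¹ * s * τ)) else 0

open Classical in
/-- the sum `SL` -/
theorem SL_eq [Fintype G] [Fintype V₀] [Fact ℓ.Prime] (psc : PscStmt) (fud : FudStmt)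
    (cjd : CjdStmt) (smg : T3.SmgStmt) (hM : (ℓ : integralClosure ℤ ℂ) ∈ M) (hℓ : ℓ ≠ 2)
    (hF : Fq ℓ V₀ E₀) (hB : Sb ℓ M E₀ B) {n m : ℕ} (hPE : PE ℓ n m G)
    {L : Set (V₀ × V₀ × ℤ)} {χ χ' : G → ℂ} (hχ : χ ∈ Ch B (p1 L)) (hχ' : χ' ∈ Ch B (p2 L)) :
    SL B m L χ χ' = (Nat.card (B.C (p1 L)) : ℂ) * Nat.card (B.C (p2 L)) *
      ∑ y : V₀, wg E₀ B (p1 L) y * ∑ y' : V₀, ∑ τ : G,
        if τ ∈ SO.H82.TT B L y y' then wg E₀ B (p2 L) y' * JJ ℓ B L χ χ' y y' τ else 0 := by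
  have h0 : SL B m L χ χ' = ∑ X : G, ∑ u : G, if cnd B L (X ^ m) u then
      χ X * starRingEnd ℂ (χ' (u⁻¹ * X * u)) else 0 := by
    unfold SL
    have h1 := SO.H59.finsum_mem_ite (fun w : G × G => cnd B L (w.1 ^ m) w.2)
      (fun w => χ w.1 * χ' (w.2⁻¹ * w.1⁻¹ * w.2))
    refine h1.trans ?_
    rw [Fintype.sum_prod_type]
    refine Finset.sum_congr rfl fun X _ => Finset.sum_congr rfl fun u _ => ?_
    have e : u⁻¹ * X⁻¹ * u = (u⁻¹ * X * u)⁻¹ := by group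
    show (if cnd B L (X ^ m) u then χ X * χ' (u⁻¹ * X⁻¹ * u) else 0) = _
    rw [e, ch_star hχ']
  rw [h0, jordan hPE]
  have h1 : ∀ z x : G, (if El ℓ z ∧ Reg ℓ x ∧ x * z = z * x then
      (∑ u : G, if cnd B L ((z * x) ^ m) u then
        χ (z * x) * starRingEnd ℂ (χ' (u⁻¹ * (z * x) * u)) else 0) else 0) =
      if El ℓ z ∧ Reg ℓ x ∧ x * z = z * x then χ (z * x) * Th B L χ' z x else 0 := by
    intro z x
    by_cases h2 : El ℓ z ∧ Reg ℓ x ∧ x * z = z * x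
    · rw [if_pos h2, if_pos h2, (SD.H45.part_iff hPE h2.1).2 ⟨h2.2.2, h2.2.1⟩]
      unfold Th
      rw [Finset.mul_sum]
      refine Finset.sum_congr rfl fun u _ => ?_
      rw [mul_ite, mul_zero]
    · rw [if_neg h2, if_neg h2]
  rw [Finset.sum_congr rfl fun z _ => Finset.sum_congr rfl fun x _ => h1 z x,
    expn psc fud cjd smg hM hℓ hF hB hPE hχ _ (fun g hg z x => Th_conj hg z x), mul_assoc]
  congr 1
  rw [Finset.mul_sum]
  refine Finset.sum_congr rfl fun y _ => ?_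
  rw [mul_left_comm]
  congr 1
  have h2 : ∀ s : G, (if s ∈ B.C (p1 L ⊔ Subgroup.zpowers y) ∧ Reg ℓ s then
      cx B (p1 L ⊔ Subgroup.zpowers y) y χ s * Th B L χ' (B.i y) s else 0) =
      (Nat.card (B.C (p2 L)) : ℂ) * ∑ y' : V₀, ∑ τ : G, if τ ∈ SO.H82.TT B L y y' then
        wg E₀ B (p2 L) y' * (if s ∈ B.C (p1 L ⊔ Subgroup.zpowers y) ∧ Reg ℓ s then
    cx B (p1 L ⊔ Subgroup.zpowers y) y χ s *
      starRingEnd ℂ (cx B (p2 L ⊔ Subgroup.zpowers y') y' χ' (τ⁻¹ * s * τ)) else 0) else 0 := by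
    intro s
    by_cases h3 : s ∈ B.C (p1 L ⊔ Subgroup.zpowers y) ∧ Reg ℓ s
    · rw [if_pos h3, Th_eq psc fud cjd smg hM hℓ hF hB hPE hχ' ((mem_C_sup _ y s).1 h3.1).2 h3.2,
        mul_left_comm]
      congr 1
      rw [Finset.mul_sum]
      refine Finset.sum_congr rfl fun y' _ => ?_
      rw [Finset.mul_sum]
      refine Finset.sum_congr rfl fun τ _ => ?_
      rw [if_pos h3, mul_ite, mul_zero]
      congr 1
      ring
    · rw [if_neg h3]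
      symm
      rw [mul_eq_zero]
      right
      refine Finset.sum_eq_zero fun y' _ => Finset.sum_eq_zero fun τ _ => ?_
      rw [if_neg h3, mul_zero, ite_self]
  rw [Finset.sum_congr rfl fun s _ => h2 s, ← Finset.mul_sum]
  congr 1
  rw [Finset.sum_comm]
  refine Finset.sum_congr rfl fun y' _ => ?_
  rw [Finset.sum_comm]
  refine Finset.sum_congr rfl fun τ _ => ?_
  by_cases h3 : τ ∈ SO.H82.TT B L y y'
  · rw [if_pos h3]
    unfold JJ
    rw [Finset.mul_sum]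
    exact Finset.sum_congr rfl fun s _ => if_pos h3
  · rw [if_neg h3]
    exact Finset.sum_eq_zero fun s _ => if_neg h3

end blk

end Pool.Agent.PP.SE.H40
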